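import Pool.Agent.MP_3ce0a0_al.Q2T2.Spec

/-! Collapse of an invariant set of edges of a simplicial tree. -/

namespace Pool.Agent.MP_3ce0a0_al.Q2T2

open Q2T1 MulAction

namespace RCol

variable {X : Type} [MetricSpace X] [IsSimp X]

/-- Induction along the geodesic to `y`. -/
theorem geo_ind (y : X) {P : X → Prop} (h0 : P y)
    (hs : ∀ x z, dist x z = 1 → Btw x z y → P z → P x) (x : X) : P x := by
  obtain ⟨n, hn⟩ := IsSimp.int x y
  induction n generalizing x with
  | zero =>
    have : x = y := dist_eq_zero.1 (by simpa using hn)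
    exact this ▸ h0
  | succ n ih =>
    have hne : x ≠ y := by
      rintro rfl
      rw [dist_self] at hn
      have : (0 : ℝ) < ((n + 1 : ℕ) : ℝ) := by positivity
      linarith
    obtain ⟨z, h1, h2⟩ := IsSimp.geo x y hne
    refine hs x z h1 h2 (ih z ?_)
    unfold Q2T1.Btw at h2
    push_cast at hn
    linarith

omit [IsSimp X] in
theorem ne_of_adj {a b : X} (h : dist a b = 1) : a ≠ b := by
  rintro rfl
  rw [dist_self] at h
  exact zero_ne_one h

/-- Every point lies on one of the two sides of an edge. -/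
theorem side_or {a b : X} (h : dist a b = 1) (z : X) : Btw a b z ∨ Btw b a z := by
  have h1 := med_btw12 a b z
  have h2 := med_btw23 a b z
  have h3 := med_btw13 a b z
  obtain ⟨n, hn⟩ := IsSimp.int a (med a b z)
  have hle : (n : ℝ) ≤ 1 := by
    rw [← hn, ← h]
    exact h1.dist_le_left
  have hn1 : n ≤ 1 := by exact_mod_cast hle
  rcases Nat.le_one_iff_eq_zero_or_eq_one.1 hn1 with rfl | rfl
  · have e : a = med a b z := dist_eq_zero.1 (by simpa using hn)
    rw [← e] at h2
    exact Or.inr h2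
  · have e : med a b z = b := by
      unfold Q2T1.Btw at h1
      push_cast at hn
      exact dist_eq_zero.1 (by linarith)
    rw [e] at h3
    exact Or.inl h3

/-- Only the edge itself crosses from one side to the other. -/
theorem cross {a b x y : X} (h : dist a b = 1) (h' : dist x y = 1) (hx : ¬ Btw a b x)
    (hy : Btw a b y) : x = a ∧ y = b := by
  have h1 : Btw x a b := ((side_or h x).resolve_left hx).symm
  have h2 : Btw x a y := h1.concat_left hy (ne_of_adj h)
  unfold Q2T1.Btw at h2 hy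
  have d1 := dist_nonneg (x := x) (y := a)
  have d2 := dist_nonneg (x := b) (y := y)
  exact ⟨dist_eq_zero.1 (by linarith), (dist_eq_zero.1 (by linarith : dist b y = 0)).symm⟩

theorem mem_of_side {a b : X} (h : dist a b = 1) {s : Set X} (hb : b ∈ s)
    (hs : ∀ x y, dist x y = 1 → x ∉ s → y ∈ s → x = a ∧ y = b) (z : X) : Btw a b z → z ∈ s := by
  refine geo_ind b (P := fun z => Btw a b z → z ∈ s) (fun _ => hb) ?_ z
  intro x w h1 h2 ih h3
  by_contra hx
  obtain ⟨e, -⟩ := hs x w h1 hx (ih (h3.trans_right' h2.symm))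
  rw [e] at h3
  exact ne_of_adj h h3.eq_of_self.symm

/-- A set that is crossed by the edge `ab` only is the side of `b`. -/
theorem mem_iff_side {a b : X} (h : dist a b = 1) {s : Set X} (ha : a ∉ s) (hb : b ∈ s)
    (hs : ∀ x y, dist x y = 1 → x ∉ s → y ∈ s → x = a ∧ y = b) (z : X) : z ∈ s ↔ Btw a b z := by
  refine ⟨fun hz => ?_, mem_of_side h hb hs z⟩
  by_contra hn
  have h1 : Btw b a z := (side_or h z).resolve_left hn
  have h2 : z ∈ sᶜ := by
    refine mem_of_side (by rw [dist_comm]; exact h) (s := sᶜ) ha ?_ z h1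
    intro x y hxy hx hy
    exact (hs y x (by rw [dist_comm]; exact hxy) hy (not_not.1 hx)).symm
  exact h2 hz

/-- A map that sends edges to edges does not increase distances. -/
theorem dist_map_le {Y : Type} [MetricSpace Y] (f : X → Y)
    (hf : ∀ x y, dist x y = 1 → dist (f x) (f y) = 1) (x y : X) : dist (f x) (f y) ≤ dist x y := by
  refine geo_ind y (P := fun x => dist (f x) (f y) ≤ dist x y) (by simp) ?_ x
  intro x z h1 h2 ih
  have h3 := hf x z h1
  have h4 := dist_triangle (f x) (f z) (f y)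
  unfold Q2T1.Btw at h2
  linarith

/-- The collapsed edges. -/
def rel (C : X → X → Prop) (x y : X) : Prop := dist x y = 1 ∧ C x y

/-- Adjacency in the collapsed tree. -/
def adj (C : X → X → Prop) (u v : Quot (rel C)) : Prop :=
  ∃ a b, Quot.mk _ a = u ∧ Quot.mk _ b = v ∧ dist a b = 1 ∧ ¬ C a b

theorem side_rel {C : X → X → Prop} (hC : ∀ x y, C x y → C y x) {a b : X} (h : dist a b = 1)
    (hn : ¬ C a b) (x y : X) (hr : rel C x y) : Btw a b x = Btw a b y := by
  apply propext
  constructor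
  · intro hx
    by_contra hy
    obtain ⟨e1, e2⟩ := cross h (by rw [dist_comm]; exact hr.1) hy hx
    have := hC _ _ hr.2
    rw [e1, e2] at this
    exact hn this
  · intro hy
    by_contra hx
    obtain ⟨e1, e2⟩ := cross h hr.1 hx hy
    have := hr.2
    rw [e1, e2] at this
    exact hn this

/-- The side of a kept edge in the collapsed tree. -/
def side {C : X → X → Prop} (hC : ∀ x y, C x y → C y x) {a b : X} (h : dist a b = 1)
    (hn : ¬ C a b) : Set (Quot (rel C)) :=
  {w | Quot.lift (fun z => Btw a b z) (side_rel hC h hn) w}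

theorem mem_side {C : X → X → Prop} (hC : ∀ x y, C x y → C y x) {a b : X} (h : dist a b = 1)
    (hn : ¬ C a b) (z : X) : Quot.mk _ z ∈ side hC h hn ↔ Btw a b z := Iff.rfl

theorem side_spec {C : X → X → Prop} (hC : ∀ x y, C x y → C y x) {a b : X} (h : dist a b = 1)
    (hn : ¬ C a b) : Quot.mk _ a ∉ side hC h hn ∧ Quot.mk _ b ∈ side hC h hn ∧
      ∀ u v, adj C u v → u ∉ side hC h hn → v ∈ side hC h hn →
        u = Quot.mk _ a ∧ v = Quot.mk _ b := by
  refine ⟨fun h1 => ne_of_adj h ((mem_side hC h hn a).1 h1).eq_of_self.symm,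
    (mem_side hC h hn b).2 (btw_right _ _), ?_⟩
  rintro _ _ ⟨x, y, rfl, rfl, hxy, -⟩ hx hy
  obtain ⟨e1, e2⟩ := cross h hxy (fun h1 => hx ((mem_side hC h hn x).2 h1))
    ((mem_side hC h hn y).1 hy)
  rw [e1, e2]
  exact ⟨rfl, rfl⟩

omit [IsSimp X] in
theorem adj_symm {C : X → X → Prop} (hC : ∀ x y, C x y → C y x) (u v : Quot (rel C))
    (h : adj C u v) : adj C v u := by
  obtain ⟨a, b, e1, e2, h1, h2⟩ := h
  exact ⟨b, a, e2, e1, by rw [dist_comm]; exact h1, fun h3 => h2 (hC _ _ h3)⟩

theorem adj_conn (C : X → X → Prop) (u v : Quot (rel C)) : Relation.ReflTransGen (adj C) u v := by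
  obtain ⟨x, rfl⟩ := Quot.exists_rep u
  obtain ⟨y, rfl⟩ := Quot.exists_rep v
  refine geo_ind y (P := fun x => Relation.ReflTransGen (adj C) (Quot.mk _ x) (Quot.mk _ y))
    Relation.ReflTransGen.refl ?_ x
  intro x z h1 _ ih
  by_cases hc : C x z
  · have e : Quot.mk (rel C) x = Quot.mk (rel C) z := Quot.sound ⟨h1, hc⟩
    rw [e]
    exact ih
  · exact Relation.ReflTransGen.head ⟨x, z, rfl, rfl, h1, hc⟩ ih

/-- The action on the collapsed tree. -/
@[reducible] def act {G : Type} [Group G] [MulAction G X] [IsIsometricSMul G X]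
    (C : X → X → Prop) (hC : ∀ (g : G) x y, C x y → C (g • x) (g • y)) :
    MulAction G (Quot (rel C)) where
  smul g := Quot.map (fun x => g • x) fun x y h => ⟨by rw [dist_smul]; exact h.1, hC g x y h.2⟩
  one_smul u := by
    obtain ⟨x, rfl⟩ := Quot.exists_rep u
    exact congrArg (Quot.mk (rel C)) (one_smul G x)
  mul_smul g g' u := by
    obtain ⟨x, rfl⟩ := Quot.exists_rep u
    exact congrArg (Quot.mk (rel C)) (mul_smul g g' x)

theorem isom {G Y : Type} [Group G] [MetricSpace Y] [IsSimp Y] [MulAction G Y]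
    (h : ∀ (g : G) (u v : Y), dist u v = 1 → dist (g • u) (g • v) = 1) : IsIsometricSMul G Y := by
  refine ⟨fun g => Isometry.of_dist_eq fun u v => le_antisymm ?_ ?_⟩
  · exact dist_map_le (fun u => g • u) (h g) u v
  · have := dist_map_le (fun u => g⁻¹ • u) (h g⁻¹) (g • u) (g • v)
    simpa only [inv_smul_smul] using this

theorem col_btw {Y : Type} [MetricSpace Y] (C : X → X → Prop) (p : X → Y)
    (h1 : ∀ x y, dist x y = 1 → C x y → p x = p y)
    (h2 : ∀ a b z, dist a b = 1 → ¬ C a b → Btw a b z → Btw (p a) (p b) (p z)) (x z y : X) :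
    Btw x z y → Btw (p x) (p z) (p y) := by
  refine geo_ind z (P := fun x => Btw x z y → Btw (p x) (p z) (p y)) (fun _ => btw_left _ _) ?_ x
  intro x w hxw hb ih h
  have h3 := ih (hb.trans_left' h)
  by_cases hc : C x w
  · rw [h1 x w hxw hc]
    exact h3
  · exact (h2 x w y hxw hc (hb.trans_left h)).trans_right h3

end RCol

theorem sCol (hG : SGraph) : SCol := by
  intro G X _ _ _ _ _ C hC hg
  obtain ⟨m, hS, hA⟩ := hG (Quot (RCol.rel C)) (RCol.adj C) (RCol.adj_symm hC) (RCol.adj_conn C)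
    (by
      rintro _ _ ⟨a, b, rfl, rfl, h, hn⟩
      exact ⟨RCol.side hC h hn, RCol.side_spec hC h hn⟩)
  let _ := RCol.act C hg
  have he : ∀ (g : G) (x : X), Quot.mk (RCol.rel C) (g • x) = g • Quot.mk (RCol.rel C) x :=
    fun _ _ => rfl
  have hI : IsIsometricSMul G (Quot (RCol.rel C)) := by
    refine RCol.isom fun g u v h => ?_
    obtain ⟨a, b, rfl, rfl, h1, h2⟩ := (hA u v).1 h
    refine (hA _ _).2 ⟨g • a, g • b, he g a, he g b, by rw [dist_smul]; exact h1, fun h3 => h2 ?_⟩
    have := hg g⁻¹ _ _ h3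
    simpa only [inv_smul_smul] using this
  have hk : ∀ a b : X, dist a b = 1 → ¬ C a b →
      dist (Quot.mk (RCol.rel C) a) (Quot.mk (RCol.rel C) b) = 1 :=
    fun a b h hn => (hA _ _).2 ⟨a, b, rfl, rfl, h, hn⟩
  have hc : ∀ a b : X, dist a b = 1 → C a b → Quot.mk (RCol.rel C) a = Quot.mk (RCol.rel C) b :=
    fun a b h hn => Quot.sound ⟨h, hn⟩
  refine ⟨Quot (RCol.rel C), m, hS, inferInstance, hI, Quot.mk _, ⟨Quot.exists_rep, ?_, ?_⟩, he, ?_⟩
  · refine RCol.col_btw C _ hc fun a b z h hn hb => ?_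
    obtain ⟨s1, s2, s3⟩ := RCol.side_spec hC h hn
    exact (RCol.mem_iff_side (hk a b h hn) s1 s2 (fun u v huv => s3 u v ((hA u v).1 huv)) _).1
      ((RCol.mem_side hC h hn z).2 hb)
  · intro x y h
    by_cases hn : C x y
    · exact Or.inl (hc x y h hn)
    · exact Or.inr (hk x y h hn)
  · intro x y h
    refine ⟨fun e => ?_, hc x y h⟩
    by_contra hn
    exact RCol.ne_of_adj (hk x y h hn) e

end Pool.Agent.MP_3ce0a0_al.Q2T2
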