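import Pool.Agent.MP_3ce0a0_al.Q2T2.Spec

/-! The minimal subtree of a finitely generated normal subgroup. -/

set_option autoImplicit false
set_option linter.unusedSectionVars false

namespace Pool.Agent.MP_3ce0a0_al.Q2T2

open Q2T1 MulAction

namespace RMin

variable {G X : Type} [Group G] [MetricSpace X]

theorem exists_min (f : X → ℝ) (hf : ∀ x, ∃ n : ℕ, f x = n) (C : Set X) (hC : C.Nonempty) :
    ∃ p ∈ C, ∀ z ∈ C, f p ≤ f z := by
  choose n hn using hf
  refine ⟨Function.argminOn n C hC, Function.argminOn_mem n C hC, fun z hz => ?_⟩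
  rw [hn, hn, Nat.cast_le]
  exact Function.argminOn_le n C hz

variable [IsSimp X]

theorem one_le {x y : X} (h : x ≠ y) : 1 ≤ dist x y := by
  obtain ⟨n, hn⟩ := IsSimp.int x y
  have h0 : n ≠ 0 := fun e => h (dist_eq_zero.1 (by rw [hn, e, Nat.cast_zero]))
  rw [hn]
  exact_mod_cast Nat.one_le_iff_ne_zero.2 h0

theorem exists_gate {C : Set X} (hC : Conv C) (hne : C.Nonempty) (x : X) :
    ∃ p ∈ C, ∀ q ∈ C, Btw x p q := by
  obtain ⟨p, hp, h⟩ := exists_min (dist x) (IsSimp.int x) C hne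
  exact ⟨p, hp, hC.gate_of_dist hp h⟩

theorem seg_finite (x y : X) : (seg x y).Finite := by
  choose n hn using (IsSimp.int : ∀ x y : X, ∃ n : ℕ, dist x y = n)
  refine Set.Finite.of_injOn (f := n x) (t := Set.Iic (n x y)) (fun z hz => ?_)
    (fun z hz w hw e => ?_) (Set.finite_Iic _)
  · have h := Btw.dist_le_left hz
    rw [hn, hn, Nat.cast_le] at h
    exact h
  · exact Btw.eq_of_dist hz hw (by rw [hn, hn, e])

/-- Of two points at distance at most one, one lies before the other. -/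
theorem btw_near {x y : X} (h : dist x y ≤ 1) (a : X) : Btw a x y ∨ Btw a y x := by
  by_contra hn
  rw [not_or] at hn
  have h1 := one_le (x := x) (y := med a x y) fun e => hn.1 (med_eq_mid_iff.1 e.symm)
  have h2 := one_le (x := med a x y) (y := y) fun e => hn.2 (med_eq_right_iff.1 e)
  have h3 : dist x (med a x y) + dist (med a x y) y = dist x y := med_btw23 a x y
  linarith

/-- An edge of a side of a triangle lies on one of the other sides. -/
theorem edge_or {a c x y : X} (hx : Btw a x c) (hy : Btw a y c) (h : dist x y ≤ 1) (b : X) :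
    (Btw a x b ∧ Btw a y b) ∨ (Btw b x c ∧ Btw b y c) := by
  have key : ∀ {x y : X}, Btw a x c → Btw a y c → dist x y ≤ 1 → Btw a x y →
      (Btw a x b ∧ Btw a y b) ∨ (Btw b x c ∧ Btw b y c) := by
    intro x y _ hy h hxy
    rcases btw_near h b with h1 | h1
    · by_cases e : x = y
      · subst e
        exact (hy.or b).imp (fun h => ⟨h, h⟩) fun h => ⟨h, h⟩
      · have h2 := hxy.trans_left' hy
        exact Or.inr ⟨h1.concat_left h2 e, h1.concat_right h2 e⟩
    · by_cases e : x = y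
      · subst e
        exact (hy.or b).imp (fun h => ⟨h, h⟩) fun h => ⟨h, h⟩
      · exact Or.inl ⟨hxy.concat_left h1.symm e, hxy.concat_right h1.symm e⟩
  rcases btw_near h a with h1 | h1
  · exact key hx hy h h1
  · exact (key hy hx (by rwa [dist_comm]) h1).imp And.symm And.symm

variable [MulAction G X] [IsIsometricSMul G X]

theorem btw_smul (g : G) {x y z : X} (h : Btw x y z) : Btw (g • x) (g • y) (g • z) :=
  BAct.btw g x y z h

theorem tmin_conv (U : Subgroup G) : Conv (Tmin X U) :=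
  fun x hx y hy z hz C h1 h2 h3 => h2 x (hx C h1 h2 h3) y (hy C h1 h2 h3) z hz

theorem tmin_smul {U : Subgroup G} (hU : U.Normal) (g : G) {x : X} (hx : x ∈ Tmin X U) :
    g • x ∈ Tmin X U := by
  rintro C ⟨c, hc⟩ h2 h3
  refine hx {y | g • y ∈ C} ⟨g⁻¹ • c, by simpa using hc⟩
    (fun a ha b hb z hz => h2 _ ha _ hb _ (btw_smul g hz)) fun u hu y hy => ?_
  have := h3 _ (hU.conj_mem u hu g) _ hy
  simpa [mul_smul] using this

theorem tmin_sub (U : Subgroup G) (z : X) : Tmin X U ⊆ hull (orb U z) := by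
  intro x hx
  refine hx _ ⟨z, subset_hull _ ⟨1, one_mem _, (one_smul _ _).symm⟩⟩ (conv_hull _) ?_
  rintro u hu y ⟨_, ⟨a, ha, rfl⟩, _, ⟨b, hb, rfl⟩, h⟩
  exact ⟨_, ⟨u * a, mul_mem hu ha, (mul_smul _ _ _).symm⟩, _,
    ⟨u * b, mul_mem hu hb, (mul_smul _ _ _).symm⟩, btw_smul u h⟩

theorem tmin_nonempty (A : Finset G) (h : ∀ x : X, ∃ u ∈ Subgroup.closure (A : Set G), u • x ≠ x)
    (hX : Nonempty X) : (Tmin X (Subgroup.closure (A : Set G))).Nonempty := by
  obtain ⟨x, -, hx⟩ := exists_min (fun x : X => ∑ a ∈ A, dist x (a • x)) (fun x => by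
    choose n hn using (IsSimp.int : ∀ x y : X, ∃ n : ℕ, dist x y = n)
    exact ⟨∑ a ∈ A, n x (a • x), by simp only [hn, Nat.cast_sum]⟩) Set.univ Set.univ_nonempty
  refine ⟨x, fun C h1 h2 h3 => ?_⟩
  obtain ⟨p, hp, hg⟩ := exists_gate h2 h1 x
  by_contra hxC
  have hxp : 0 < dist x p := dist_pos.2 fun e => hxC (e ▸ hp)
  have key : ∀ a ∈ A, a • p ≠ p → dist p (a • p) < dist x (a • x) := by
    intro a ha hne
    have haU : a ∈ Subgroup.closure (A : Set G) := Subgroup.subset_closure ha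
    have b1 : Btw x p (a • p) := hg _ (h3 a haU p hp)
    have b2 : Btw p (a • p) (a • x) := by
      have := btw_smul a (hg _ (h3 a⁻¹ (inv_mem haU) p hp))
      rw [smul_inv_smul] at this
      exact this.symm
    have b3 : dist x p + dist p (a • x) = dist x (a • x) := b1.concat_left b2 hne.symm
    have b4 := b2.dist_le_left
    linarith
  have hex : ∃ a ∈ A, a • p ≠ p := by
    by_contra hn
    obtain ⟨u, hu, hup⟩ := h p
    refine hup ((Subgroup.closure_le (stabilizer G p)).2 (fun a ha => ?_) hu)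
    by_contra hc
    exact hn ⟨a, ha, hc⟩
  refine absurd (hx p (Set.mem_univ _)) (not_le.2 (Finset.sum_lt_sum (fun a ha => ?_) ?_))
  · by_cases e : a • p = p
    · rw [e, dist_self]
      exact dist_nonneg
    · exact (key a ha e).le
  · obtain ⟨a, ha, e⟩ := hex
    exact ⟨a, ha, key a ha e⟩

/-- Edges of the hull of an orbit can be moved into finitely many segments. -/
theorem cover (A : Finset G) (o : X) : ∃ S : Set X, S.Finite ∧
    ∀ x ∈ hull (orb (Subgroup.closure (A : Set G)) o),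
      ∀ y ∈ hull (orb (Subgroup.closure (A : Set G)) o), dist x y ≤ 1 →
        ∃ g ∈ Subgroup.closure (A : Set G), g • x ∈ S ∧ g • y ∈ S := by
  set S : Set X := {o} ∪ ⋃ a ∈ A, seg o (a • o) with hS
  have key : ∀ u ∈ Subgroup.closure (A : Set G), ∀ x y : X, Btw o x (u • o) → Btw o y (u • o) →
      dist x y ≤ 1 → ∃ g ∈ Subgroup.closure (A : Set G), g • x ∈ S ∧ g • y ∈ S := by
    intro u hu
    induction hu using Subgroup.closure_induction with
    | mem a ha =>
      intro x y hx hy _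
      refine ⟨1, one_mem _, ?_, ?_⟩ <;> rw [one_smul]
      · exact Or.inr (Set.mem_biUnion ha hx)
      · exact Or.inr (Set.mem_biUnion ha hy)
    | one =>
      intro x y hx hy _
      rw [one_smul] at hx hy
      refine ⟨1, one_mem _, ?_, ?_⟩ <;> rw [one_smul]
      · exact Or.inl hx.eq_of_self
      · exact Or.inl hy.eq_of_self
    | mul u v hu _ h1 h2 =>
      intro x y hx hy h
      rcases edge_or hx hy h (u • o) with ⟨h3, h4⟩ | ⟨h3, h4⟩
      · exact h1 x y h3 h4 h
      · have h5 := btw_smul u⁻¹ h3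
        have h6 := btw_smul u⁻¹ h4
        rw [inv_smul_smul, mul_smul, inv_smul_smul] at h5 h6
        obtain ⟨g, hg, h7, h8⟩ := h2 _ _ h5 h6 (by rwa [dist_smul])
        exact ⟨g * u⁻¹, mul_mem hg (inv_mem hu), by rwa [mul_smul], by rwa [mul_smul]⟩
    | inv u hu h1 =>
      intro x y hx hy h
      have h5 := (btw_smul u hx).symm
      have h6 := (btw_smul u hy).symm
      rw [smul_inv_smul] at h5 h6
      obtain ⟨g, hg, h7, h8⟩ := h1 _ _ h5 h6 (by rwa [dist_smul])
      exact ⟨g * u, mul_mem hg hu, by rwa [mul_smul], by rwa [mul_smul]⟩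
  refine ⟨S, (Set.finite_singleton o).union
    (A.finite_toSet.biUnion fun a _ => seg_finite _ _), fun x hx y hy h => ?_⟩
  have ho : o ∈ orb (Subgroup.closure (A : Set G)) o := ⟨1, one_mem _, (one_smul _ _).symm⟩
  obtain ⟨_, ⟨u, hu, rfl⟩, h1⟩ := (mem_hull_base ho).1 hx
  obtain ⟨_, ⟨v, hv, rfl⟩, h2⟩ := (mem_hull_base ho).1 hy
  rcases btw_near h o with h3 | h3
  · exact key v hv x y (h3.trans_left h2) h2 h
  · exact key u hu x y h1 (h3.trans_left h1) h

end RMin

open RMin

theorem sMin : SMin := by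
  intro G X _ _ _ _ _ U hU hfg _ hfix hX
  obtain ⟨A, rfl⟩ := hfg
  set U := Subgroup.closure (A : Set G) with hUA
  obtain ⟨o, ho⟩ := tmin_nonempty A hfix hX
  have hc : Conv (Tmin X U) := tmin_conv U
  let _ : IsTree (Tmin X U) := hc.medCl.isTree
  let i1 : IsSimp (Tmin X U) :=
    { int := fun x y => IsSimp.int (x : X) y
      geo := fun x y h => by
        obtain ⟨z, h1, h2⟩ := IsSimp.geo (x : X) y fun e => h (Subtype.ext e)
        exact ⟨⟨z, hc _ x.2 _ y.2 z h2⟩, h1, h2⟩ }
  let i2 : MulAction G (Tmin X U) :=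
    { smul := fun g x => ⟨g • (x : X), tmin_smul hU g x.2⟩
      one_smul := fun x => Subtype.ext (one_smul G (x : X))
      mul_smul := fun g h x => Subtype.ext (mul_smul g h (x : X)) }
  have i3 : IsIsometricSMul G (Tmin X U) :=
    ⟨fun g => Isometry.of_dist_eq fun x y => dist_smul g (x : X) y⟩
  obtain ⟨S, hS, hcov⟩ := cover A o
  have hS' : (Subtype.val ⁻¹' S : Set (Tmin X U)).Finite :=
    hS.preimage Subtype.val_injective.injOn
  refine ⟨Tmin X U, inferInstance, i1, i2, i3, Subtype.val, ⟨⟨o, ho⟩⟩, isometry_subtype_coe,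
    fun _ _ => rfl, Subtype.range_coe, by rw [Subtype.range_coe]; exact hc,
    ⟨⟨_, hS', fun x => ?_⟩, ⟨_, hS'.prod hS', fun x y h => ?_⟩⟩, fun x y z hne => ?_, ?_⟩
  · obtain ⟨g, hg, h1, -⟩ := hcov x (tmin_sub U o x.2) x (tmin_sub U o x.2) (by simp)
    exact ⟨g, hg, h1⟩
  · exact hcov x (tmin_sub U o x.2) y (tmin_sub U o y.2) (le_of_eq h)
  · by_contra hn
    have h1 : orb U (z : X) ⊆ (dir (x : X) y)ᶜ := by
      rintro _ ⟨u, hu, rfl⟩ h
      exact hn ⟨u, hu, h⟩
    exact hull_min (conv_compl_dir _ _) h1 (tmin_sub U (z : X) y.2)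
      (self_mem_dir fun e => hne (Subtype.ext e))
  · rintro H ⟨x, hx⟩
    obtain ⟨p, hp, hg⟩ := exists_gate hc ⟨o, ho⟩ x
    refine ⟨⟨p, hp⟩, fun h hh => Subtype.ext ?_⟩
    have h1 := btw_smul h (hg _ (tmin_smul hU h⁻¹ hp))
    rw [hx h hh, smul_inv_smul] at h1
    exact h1.antisymm (hg _ (tmin_smul hU h hp))

end Pool.Agent.MP_3ce0a0_al.Q2T2
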