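import Pool.Agent.MP_3ce0a0_al.Q2T2.Spec

/-! Rows NBR, SUB, FI. -/

set_option autoImplicit false

namespace Pool.Agent.MP_3ce0a0_al.Q2T2

open Q2T1 MulAction

namespace RNbr

section Add

variable {X : Type} [MetricSpace X] [IsTree X] {D : X → X → ℝ}

theorem tri_eq (hs : ∀ x y, D x y = D y x) (ha : ∀ x m y, Btw x m y → D x m + D m y = D x y)
    (x y z : X) : D x y + D y z = D x z + 2 * D (med x y z) y := by
  have h1 := ha _ _ _ (med_btw12 x y z)
  have h2 := ha _ _ _ (med_btw23 x y z)
  have h3 := ha _ _ _ (med_btw13 x y z)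
  have h4 := hs y (med x y z)
  linarith

theorem four_aux (hs : ∀ x y, D x y = D y x) (h0 : ∀ x y, 0 ≤ D x y)
    (ha : ∀ x m y, Btw x m y → D x m + D m y = D x y) (x y z w : X)
    (h : Btw x (med x y z) (med x y w)) : D x y + D z w ≤ D x w + D y z := by
  have t1 := tri_eq hs ha z (med x y z) w
  have t2 := tri_eq hs ha (med x y z) (med x y w) w
  have n1 := h0 (med z (med x y z) w) (med x y z)
  have n2 := h0 (med (med x y z) (med x y w) w) (med x y w)
  have h1 := ha _ _ _ (med_btw12 x y z)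
  have h2 := ha _ _ _ (med_btw23 x y z)
  have h3 := ha _ _ _ (med_btw13 x y w)
  have h4 := ha _ _ _ h
  have s1 := hs y (med x y z)
  have s2 := hs z (med x y z)
  linarith

theorem four_le (hs : ∀ x y, D x y = D y x) (h0 : ∀ x y, 0 ≤ D x y)
    (ha : ∀ x m y, Btw x m y → D x m + D m y = D x y) (x y z w : X) :
    D x y + D z w ≤ max (D x z + D y w) (D x w + D y z) := by
  rcases (med_btw12 x y z).total (med_btw12 x y w) with h | h
  · exact (four_aux hs h0 ha x y z w h).trans (le_max_right _ _)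
  · have := four_aux hs h0 ha x y w z h
    rw [hs w z] at this
    exact this.trans (le_max_left _ _)

end Add

section Cnt

variable {X : Type} [MetricSpace X]

theorem cnt_self (x : X) : (seg x x).ncard = 1 := by rw [seg_self, Set.ncard_singleton]

theorem cnt_pos (hf : ∀ x y : X, (seg x y).Finite) (x y : X) : 1 ≤ (seg x y).ncard :=
  (Set.ncard_pos (hf x y)).2 ⟨x, btw_left x y⟩

theorem eq_of_cnt (hf : ∀ x y : X, (seg x y).Finite) {x y : X} (h : (seg x y).ncard ≤ 1) :
    x = y := (Set.ncard_le_one (hf x y)).1 h x (btw_left x y) y (btw_right x y)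

theorem cnt_add [IsTree X] (hf : ∀ x y : X, (seg x y).Finite) {x m y : X} (h : Btw x m y) :
    (seg x m).ncard + (seg m y).ncard = (seg x y).ncard + 1 := by
  have h1 : seg x m ∪ seg m y = seg x y := by
    ext z
    exact ⟨fun hz => hz.elim (fun h1 => Btw.trans_left h1 h) fun h1 => h.trans_right h1,
      fun hz => Btw.or hz m⟩
  have h2 : seg x m ∩ seg m y = {m} := by
    ext z
    exact ⟨fun hz => (Btw.trans_left' hz.1 h).antisymm' hz.2,
      fun hz => by rw [hz]; exact ⟨btw_right _ _, btw_left _ _⟩⟩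
  rw [← Set.ncard_union_add_ncard_inter _ _ (hf x m) (hf m y), h1, h2, Set.ncard_singleton]

theorem cnt_two [IsTree X] (hf : ∀ x y : X, (seg x y).Finite) (x y : X) :
    (seg x y).ncard = 2 ↔ Nbr x y := by
  constructor
  · intro h
    refine ⟨fun e => ?_, fun z hz => ?_⟩
    · rw [e, cnt_self] at h
      omega
    · have h1 := cnt_add hf hz
      have h2 := cnt_pos hf x z
      have h3 := cnt_pos hf z y
      by_cases h4 : (seg x z).ncard ≤ 1
      · exact Or.inl (eq_of_cnt hf h4).symm
      · exact Or.inr (eq_of_cnt hf (by omega))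
  · intro h
    have h1 : seg x y = {x, y} := by
      ext z
      refine ⟨fun hz => h.2 z hz, ?_⟩
      rintro (rfl | rfl)
      · exact btw_left _ _
      · exact btw_right _ _
    rw [h1, Set.ncard_pair h.1]

theorem ex_nbr (hf : ∀ x y : X, (seg x y).Finite) {x y : X} (h : x ≠ y) :
    ∃ z, Nbr x z ∧ Btw x z y := by
  obtain ⟨z, hz, hmin⟩ := Set.exists_min_image (seg x y \ {x}) (dist x) (hf x y).sdiff
    ⟨y, btw_right x y, h.symm⟩
  refine ⟨z, ⟨fun e => hz.2 e.symm, fun p hp => ?_⟩, hz.1⟩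
  by_contra hn
  rw [not_or] at hn
  exact absurd (hp.dist_lt_left hn.2) (not_lt.2 (hmin p ⟨hp.trans_left hz.1, hn.1⟩))

theorem cnt_smul {G : Type} [Group G] [MulAction G X] [BAct G X] (g : G) (x y : X) :
    (seg (g • x) (g • y)).ncard = (seg x y).ncard := by
  have h : seg (g • x) (g • y) = (fun z => g • z) '' seg x y := by
    ext z
    constructor
    · intro hz
      refine ⟨g⁻¹ • z, ?_, smul_inv_smul g z⟩
      have := BAct.btw g⁻¹ _ _ _ hz
      rwa [inv_smul_smul, inv_smul_smul] at this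
    · rintro ⟨w, hw, rfl⟩
      exact BAct.btw g _ _ _ hw
  rw [h, Set.ncard_image_of_injective _ (MulAction.injective g)]

/-- The number of edges of the segment. -/
noncomputable def DD (x y : X) : ℝ := ((seg x y).ncard : ℝ) - 1

theorem DD_symm (x y : X) : DD x y = DD y x := by rw [DD, DD, seg_comm]

theorem DD_nonneg (hf : ∀ x y : X, (seg x y).Finite) (x y : X) : 0 ≤ DD x y := by
  have : (1 : ℝ) ≤ (seg x y).ncard := by exact_mod_cast cnt_pos hf x y
  exact sub_nonneg.2 this

theorem DD_add [IsTree X] (hf : ∀ x y : X, (seg x y).Finite) (x m y : X) (h : Btw x m y) :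
    DD x m + DD m y = DD x y := by
  have : ((seg x m).ncard : ℝ) + (seg m y).ncard = (seg x y).ncard + 1 := by
    exact_mod_cast cnt_add hf h
  unfold DD
  linarith

theorem DD_zero (hf : ∀ x y : X, (seg x y).Finite) {x y : X} (h : DD x y = 0) : x = y := by
  have h1 : ((seg x y).ncard : ℝ) = 1 := sub_eq_zero.1 h
  have h2 : (seg x y).ncard = 1 := by exact_mod_cast h1
  exact eq_of_cnt hf h2.le

theorem DD_one [IsTree X] (hf : ∀ x y : X, (seg x y).Finite) (x y : X) :
    DD x y = 1 ↔ Nbr x y := by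
  rw [← cnt_two hf, DD]
  constructor
  · intro h
    have h1 : ((seg x y).ncard : ℝ) = 2 := by linarith
    exact_mod_cast h1
  · intro h
    rw [h]
    norm_num

theorem DD_btw [IsTree X] (hf : ∀ x y : X, (seg x y).Finite) (x y z : X) :
    DD x y + DD y z = DD x z ↔ Btw x y z := by
  refine ⟨fun h => ?_, DD_add hf x y z⟩
  have h1 := tri_eq DD_symm (DD_add hf) x y z
  exact med_eq_mid_iff.1 (DD_zero hf (by linarith))

end Cnt

/-- A copy of `X`. -/
structure Wr (X : Type) : Type where
  /-- the point -/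
  val : X

/-- The identification with the copy. -/
def wrE (X : Type) : X ≃ Wr X := ⟨Wr.mk, Wr.val, fun _ => rfl, fun _ => rfl⟩

/-- The combinatorial metric. -/
@[reducible] noncomputable def wrM {X : Type} [MetricSpace X] [IsTree X]
    (hf : ∀ x y : X, (seg x y).Finite) : MetricSpace (Wr X) where
  dist a b := DD a.val b.val
  dist_self a := by rw [DD, cnt_self]; norm_num
  dist_comm a b := DD_symm _ _
  dist_triangle a b c := by
    have h1 := tri_eq DD_symm (DD_add hf) a.val b.val c.val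
    have h2 := DD_nonneg hf (med a.val b.val c.val) b.val
    linarith
  eq_of_dist_eq_zero := fun {a b} h => congrArg Wr.mk (DD_zero hf h)

/-- The action on the copy. -/
@[reducible] def wrA (G X : Type) [Group G] [MulAction G X] : MulAction G (Wr X) where
  smul g a := ⟨g • a.val⟩
  one_smul a := congrArg Wr.mk (one_smul G a.val)
  mul_smul g h a := congrArg Wr.mk (mul_smul g h a.val)

theorem fin_orb {G Z : Type} [Group G] [MulAction G Z] (U : Subgroup G) (hU : U.Normal)
    (R : Set Z) (hR : R.Finite) (h : ∀ z, ∃ g ∈ U, g • z ∈ R) :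
    ∃ H : Subgroup G, H.Normal ∧ H.FiniteIndex ∧ U ≤ H ∧
      ∀ a ∈ H, ∀ z : Z, ∃ u ∈ U, u • z = a • z := by
  let s : Setoid Z := MulAction.orbitRel U Z
  have hs : ∀ x y : Z, s.r x y ↔ ∃ u ∈ U, u • y = x := fun x y =>
    ⟨fun ⟨u, hu⟩ => ⟨u, u.2, hu⟩, fun ⟨u, hu, e⟩ => ⟨⟨u, hu⟩, e⟩⟩
  have hg : ∀ (g : G) (x y : Z), s.r x y → s.r (g • x) (g • y) := by
    intro g x y hxy
    obtain ⟨u, hu, rfl⟩ := (hs x y).1 hxy
    exact (hs _ _).2 ⟨g * u * g⁻¹, hU.conj_mem u hu g, by
      rw [mul_smul, inv_smul_smul, mul_smul]⟩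
  let act : MulAction G (Quotient s) :=
    { smul := fun g => Quotient.map' (fun z => g • z) (hg g)
      one_smul := fun q => Quotient.inductionOn q fun z =>
        congrArg (Quotient.mk s) (one_smul G z)
      mul_smul := fun a b q => Quotient.inductionOn q fun z =>
        congrArg (Quotient.mk s) (mul_smul a b z) }
  have hfin : Finite (Quotient s) := by
    have := hR.to_subtype
    refine Finite.of_surjective (fun r : R => Quotient.mk s r.1) fun q => ?_
    induction q using Quotient.inductionOn with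
    | h z =>
      obtain ⟨g, hg', hr⟩ := h z
      exact ⟨⟨_, hr⟩, Quotient.sound ((hs _ _).2 ⟨g, hg', rfl⟩)⟩
  have hk : ∀ a, a ∈ (MulAction.toPermHom G (Quotient s)).ker ↔
      ∀ z : Z, ∃ u ∈ U, u • z = a • z := by
    intro a
    rw [MonoidHom.mem_ker]
    constructor
    · intro ha z
      have h1 : Quotient.mk s (a • z) = Quotient.mk s z :=
        congrArg (fun e : Equiv.Perm (Quotient s) => e (Quotient.mk s z)) ha
      exact (hs _ _).1 (Quotient.exact h1)
    · intro ha
      ext q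
      induction q using Quotient.inductionOn with
      | h z => exact Quotient.sound ((hs _ _).2 (ha z))
  exact ⟨_, inferInstance, Subgroup.finiteIndex_ker _, fun u hu => (hk u).2 fun z => ⟨u, hu, rfl⟩,
    fun a ha => (hk a).1 ha⟩

end RNbr

open RNbr

theorem sNbr : SNbr := by
  intro G X _ _ _ _ _ hf
  let m : MetricSpace (Wr X) := wrM hf
  let a : MulAction G (Wr X) := wrA G X
  have hb : ∀ x y z : Wr X, Btw x y z ↔ Btw x.val y.val z.val := fun x y z => DD_btw hf _ _ _
  have hT : IsSimp (Wr X) :=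
    { four := fun x y z w => four_le DD_symm (DD_nonneg hf) (DD_add hf) x.val y.val z.val w.val
      ex_med := fun x y z => ⟨⟨med x.val y.val z.val⟩, (hb _ _ _).2 (med_btw12 _ _ _),
        (hb _ _ _).2 (med_btw23 _ _ _), (hb _ _ _).2 (med_btw13 _ _ _)⟩
      int := fun x y => ⟨(seg x.val y.val).ncard - 1, by
        rw [Nat.cast_sub (cnt_pos hf _ _), Nat.cast_one]; rfl⟩
      geo := fun x y hxy => by
        obtain ⟨z, h1, h2⟩ := ex_nbr hf (x := x.val) (y := y.val) fun e => hxy (congrArg Wr.mk e)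
        exact ⟨⟨z⟩, (DD_one hf _ _).2 h1, (hb _ _ _).2 h2⟩ }
  have hI : IsIsometricSMul G (Wr X) := ⟨fun g => Isometry.of_dist_eq fun x y => by
    change DD (g • x.val) (g • y.val) = DD x.val y.val
    rw [DD, DD, cnt_smul]⟩
  exact ⟨Wr X, m, hT, a, hI, wrE X, fun _ _ => rfl, fun x z y => hb _ _ _,
    fun x y => DD_one hf x y⟩

theorem sSub : SSub := by
  intro G X _ _ _ _ _ C hC hG
  let a : MulAction G C :=
    { smul := fun g x => ⟨g • x.1, hG g x.1 x.2⟩
      one_smul := fun x => Subtype.ext (one_smul G x.1)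
      mul_smul := fun g h x => Subtype.ext (mul_smul g h x.1) }
  have hT : IsSimp C :=
    { hC.medCl.isTree with
      int := fun x y => IsSimp.int x.1 y.1
      geo := fun x y hxy => by
        obtain ⟨z, h1, h2⟩ := IsSimp.geo x.1 y.1 fun e => hxy (Subtype.ext e)
        exact ⟨⟨z, hC _ x.2 _ y.2 z h2⟩, h1, h2⟩ }
  have hI : IsIsometricSMul G C := ⟨fun g => Isometry.of_dist_eq fun x y =>
    dist_smul g x.1 y.1⟩
  exact ⟨C, inferInstance, hT, a, hI, Subtype.val, isometry_subtype_coe, fun _ _ => rfl,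
    Subtype.range_coe⟩

theorem sFI : SFI := by
  intro G X _ _ _ _ U hU hc
  obtain ⟨R, hR, h⟩ := hc.finV
  obtain ⟨R', hR', h'⟩ := hc.finE
  obtain ⟨H, n1, f1, l1, k1⟩ := fin_orb U hU R hR h
  let E : Type := {p : X × X // dist p.1 p.2 = 1}
  let a : MulAction G E :=
    { smul := fun g p => ⟨(g • p.1.1, g • p.1.2), (dist_smul g _ _).trans p.2⟩
      one_smul := fun p => Subtype.ext (Prod.ext (one_smul G p.1.1) (one_smul G p.1.2))
      mul_smul := fun g h p => Subtype.ext (Prod.ext (mul_smul g h p.1.1) (mul_smul g h p.1.2)) }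
  obtain ⟨H', n2, f2, l2, k2⟩ := fin_orb (Z := E) U hU (Subtype.val ⁻¹' R')
    (hR'.preimage Subtype.val_injective.injOn) fun p => h' p.1.1 p.1.2 p.2
  refine ⟨H ⊓ H', inferInstance, inferInstance, le_inf l1 l2, fun b hb => ⟨k1 b hb.1, ?_⟩⟩
  intro x y hxy
  obtain ⟨u, hu, e⟩ := k2 b hb.2 ⟨(x, y), hxy⟩
  exact ⟨u, hu, congrArg (fun p : E => p.1.1) e, congrArg (fun p : E => p.1.2) e⟩

end Pool.Agent.MP_3ce0a0_al.Q2T2
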