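import Pool.Agent.MP_3ce0a0_al.Q2T2.Spec

/-! The quotient of a simplicial tree by a normal subgroup generated by elliptic elements. -/

namespace Pool.Agent.MP_3ce0a0_al.Q2T2

open Q2T1

namespace RQuo

section Simp

variable {X : Type} [MetricSpace X] [IsSimp X]

/-- Induction along edges. -/
theorem edge_ind {P : X → Prop} (x0 : X) (h0 : P x0)
    (hs : ∀ x y, dist x y = 1 → Btw x0 x y → P x → P y) (x : X) : P x := by
  obtain ⟨n, hn⟩ := IsSimp.int x0 x
  induction n generalizing x with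
  | zero =>
    have : x0 = x := dist_eq_zero.1 (by simpa using hn)
    exact this ▸ h0
  | succ n ih =>
    have hne : x ≠ x0 := by
      rintro rfl
      rw [dist_self] at hn
      have : (0 : ℝ) < ((n + 1 : ℕ) : ℝ) := by positivity
      linarith
    obtain ⟨z, hz, hb⟩ := IsSimp.geo x x0 hne
    refine hs z x (by rwa [dist_comm]) hb.symm (ih z ?_)
    unfold Q2T1.Btw at hb
    rw [dist_comm x x0, dist_comm z x0, hn, hz] at hb
    push_cast at hb
    linarith

theorem btw_or_of_edge (x0 : X) {x y : X} (h : dist x y = 1) : Btw x0 x y ∨ Btw x0 y x := by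
  have h1 := med_btw23 x0 x y
  obtain ⟨n, hn⟩ := IsSimp.int x (med x0 x y)
  obtain ⟨k, hk⟩ := IsSimp.int (med x0 x y) y
  unfold Q2T1.Btw at h1
  rw [hn, hk, h] at h1
  have h2 : n + k = 1 := by exact_mod_cast h1
  rcases Nat.eq_zero_or_pos n with h0 | h0
  · left
    rw [h0, Nat.cast_zero, dist_eq_zero] at hn
    exact med_eq_mid_iff.1 hn.symm
  · right
    have : k = 0 := by omega
    rw [this, Nat.cast_zero, dist_eq_zero] at hk
    exact med_eq_right_iff.1 hk

/-- A symmetric function on edges has a potential. -/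
theorem ex_potential (x0 : X) (c : X → X → ZMod 2) (hc : ∀ x y, c x y = c y x) :
    ∃ h : X → ZMod 2, ∀ x y, dist x y = 1 → h y = h x + c x y := by
  classical
  choose dn hdn using fun x : X => IsSimp.int x0 x
  have hpar : ∀ x : X, ∃ z, x ≠ x0 → dist x z = 1 ∧ Btw x z x0 := fun x => by
    by_cases hx : x = x0
    · exact ⟨x, fun h => absurd hx h⟩
    · obtain ⟨z, hz⟩ := IsSimp.geo x x0 hx
      exact ⟨z, fun _ => hz⟩
  choose par hpar using hpar
  let H : ℕ → X → ZMod 2 := fun n =>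
    Nat.rec (fun _ => 0) (fun _ f x => f (par x) + c (par x) x) n
  have key : ∀ x y, dist x y = 1 → Btw x0 x y → H (dn y) y = H (dn x) x + c x y := by
    intro x y h hb
    have hd : dn y = dn x + 1 := by
      have := hb
      unfold Q2T1.Btw at this
      rw [hdn, hdn, h] at this
      exact_mod_cast this.symm
    have hne : y ≠ x0 := by
      rintro rfl
      have := hb.eq_of_self
      rw [this, dist_self] at h
      exact zero_ne_one h
    obtain ⟨p1, p2⟩ := hpar y hne
    have hp : par y = x := p2.eq_of_dist hb.symm (by rw [p1, dist_comm, h])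
    rw [hd]
    change H (dn x) (par y) + c (par y) y = _
    rw [hp]
  refine ⟨fun x => H (dn x) x, fun x y h => ?_⟩
  rcases btw_or_of_edge x0 h with hb | hb
  · exact key x y h hb
  · have := key y x (by rwa [dist_comm]) hb
    simp only
    rw [this, hc y x, add_assoc, CharTwo.add_self_eq_zero, add_zero]

/-- A map that preserves edges does not increase distances. -/
theorem dist_le_of_edge {Y : Type} [MetricSpace Y] (f : X → Y)
    (hf : ∀ x y, dist x y = 1 → dist (f x) (f y) = 1) (x y : X) :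
    dist (f x) (f y) ≤ dist x y := by
  refine edge_ind (P := fun y => dist (f x) (f y) ≤ dist x y) x (by simp) ?_ y
  intro a b hab hb ha
  unfold Q2T1.Btw at hb
  have := dist_triangle (f x) (f a) (f b)
  rw [hf a b hab] at this
  linarith

end Simp

variable {G X : Type} [Group G] [MetricSpace X] [IsSimp X] [MulAction G X] [IsIsometricSMul G X]

/-- The potential that changes exactly across the translates of the edge `a b`. -/
theorem ex_cross (N : Subgroup G) (hN : N ≤ Subgroup.closure {g | g ∈ N ∧ Ell X g}) (a b : X)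
    (hab : dist a b = 1) : ∃ h : X → ZMod 2, h a ≠ h b ∧ (∀ n ∈ N, ∀ x, h (n • x) = h x) ∧
      ∀ x y, dist x y = 1 → h x ≠ h b → h y = h b → ∃ n ∈ N, n • a = x ∧ n • b = y := by
  classical
  let T : X → X → Prop := fun x y =>
    ∃ n ∈ N, (n • a = x ∧ n • b = y) ∨ (n • a = y ∧ n • b = x)
  have Tsymm : ∀ x y, T x y → T y x := fun x y ⟨n, hn, h⟩ => ⟨n, hn, h.symm⟩
  have Tsmul : ∀ g ∈ N, ∀ x y, T x y → T (g • x) (g • y) := by
    rintro g hg x y ⟨n, hn, h⟩
    refine ⟨g * n, mul_mem hg hn, ?_⟩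
    rcases h with ⟨rfl, rfl⟩ | ⟨rfl, rfl⟩
    · exact Or.inl ⟨mul_smul _ _ _, mul_smul _ _ _⟩
    · exact Or.inr ⟨mul_smul _ _ _, mul_smul _ _ _⟩
  have Tiff : ∀ g ∈ N, ∀ x y, T (g • x) (g • y) ↔ T x y := fun g hg x y =>
    ⟨fun h => by simpa using Tsmul g⁻¹ (inv_mem hg) _ _ h, Tsmul g hg x y⟩
  obtain ⟨h, hh⟩ := ex_potential a (fun x y => if T x y then 1 else 0) fun x y =>
    if_congr ⟨Tsymm x y, Tsymm y x⟩ rfl rfl
  have hne : h a ≠ h b := by
    rw [hh a b hab, if_pos ⟨1, one_mem _, Or.inl ⟨one_smul _ _, one_smul _ _⟩⟩]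
    simp
  have hinv : ∀ n ∈ N, ∀ x, h (n • x) = h x := by
    let S : Subgroup G :=
      { carrier := {g | ∀ x, h (g • x) = h x}
        one_mem' := fun x => by rw [one_smul]
        mul_mem' := fun {g g'} hg hg' x => by rw [mul_smul, hg, hg']
        inv_mem' := fun {g} hg x => by rw [← hg (g⁻¹ • x), smul_inv_smul] }
    have hS : Subgroup.closure {g | g ∈ N ∧ Ell X g} ≤ S := by
      refine (Subgroup.closure_le _).2 ?_
      rintro g ⟨hg, x0, hx0⟩ x
      refine edge_ind (P := fun x => h (g • x) = h x) x0 (by rw [hx0]) ?_ x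
      intro y z hyz _ hy
      rw [hh y z hyz, hh (g • y) (g • z) (by rwa [dist_smul]), hy,
        if_congr (Tiff g hg y z) rfl rfl]
    exact fun n hn => hS (hN hn)
  refine ⟨h, hne, hinv, fun x y hxy hx hy => ?_⟩
  have hT : T x y := by
    by_contra hT
    have := hh x y hxy
    rw [if_neg hT, add_zero] at this
    exact hx (this ▸ hy)
  obtain ⟨n, hn, h1 | ⟨h1, -⟩⟩ := hT
  · exact ⟨n, hn, h1⟩
  · rw [← h1, hinv n hn] at hy
    exact absurd hy hne

end RQuo

open RQuo in
theorem sQuo (hG : SGraph) : SQuo := by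
  intro G X _ _ _ _ _ N hNn hN
  let r : Setoid X :=
    { r := fun x y => ∃ n ∈ N, n • x = y
      iseqv :=
        ⟨fun x => ⟨1, one_mem _, one_smul _ _⟩,
          fun ⟨n, hn, h⟩ => ⟨n⁻¹, inv_mem hn, by rw [← h, inv_smul_smul]⟩,
          fun ⟨n, hn, h⟩ ⟨m, hm, h'⟩ => ⟨m * n, mul_mem hm hn, by rw [mul_smul, h, h']⟩⟩ }
  let p : X → Quotient r := Quotient.mk r
  have hp : ∀ x y, p x = p y ↔ ∃ n ∈ N, n • x = y := fun x y => Quotient.eq
  have hsurj : Function.Surjective p := Quotient.mk_surjective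
  let A : Quotient r → Quotient r → Prop := fun u v => ∃ x y, dist x y = 1 ∧ p x = u ∧ p y = v
  obtain ⟨mY, sY, hA⟩ := hG (Quotient r) A
    (fun u v ⟨x, y, h, hx, hy⟩ => ⟨y, x, by rwa [dist_comm], hy, hx⟩)
    (by
      intro u v
      obtain ⟨x, rfl⟩ := hsurj u
      obtain ⟨y, rfl⟩ := hsurj v
      exact edge_ind (P := fun y => Relation.ReflTransGen A (p x) (p y)) x
        Relation.ReflTransGen.refl (fun a b hab _ ha => ha.tail ⟨a, b, hab, rfl, rfl⟩) y)
    (by
      rintro _ _ ⟨a, b, hab, rfl, rfl⟩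
      obtain ⟨h, hne, hinv, hc⟩ := ex_cross N hN a b hab
      have hmem : ∀ x, p x ∈ {u | ∃ z, p z = u ∧ h z = h b} ↔ h x = h b := by
        intro x
        refine ⟨fun ⟨z, hz, hz'⟩ => ?_, fun hx => ⟨x, rfl, hx⟩⟩
        obtain ⟨n, hn, rfl⟩ := (hp _ _).1 hz
        rw [hinv n hn, hz']
      refine ⟨{u | ∃ z, p z = u ∧ h z = h b}, fun ha => hne ((hmem a).1 ha), (hmem b).2 rfl, ?_⟩
      rintro _ _ ⟨x, y, hxy, rfl, rfl⟩ hx hy
      obtain ⟨n, hn, h1, h2⟩ := hc x y hxy (fun e => hx ((hmem x).2 e)) ((hmem y).1 hy)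
      exact ⟨((hp _ _).2 ⟨n, hn, h1⟩).symm, ((hp _ _).2 ⟨n, hn, h2⟩).symm⟩)
  let act : MulAction G (Quotient r) :=
    { smul := fun g => Quotient.map (fun x => g • x) (by
        rintro x y ⟨n, hn, rfl⟩
        exact ⟨g * n * g⁻¹, hNn.conj_mem n hn g, by simp [mul_smul]⟩)
      one_smul := fun u => by
        obtain ⟨x, rfl⟩ := hsurj u
        exact congrArg p (one_smul G x)
      mul_smul := fun g g' u => by
        obtain ⟨x, rfl⟩ := hsurj u
        exact congrArg p (mul_smul g g' x) }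
  have heq : ∀ (g : G) x, p (g • x) = g • p x := fun g x => rfl
  have hle : ∀ (g : G) (u v : Quotient r), dist (g • u) (g • v) ≤ dist u v := fun g =>
    dist_le_of_edge (fun u => g • u) fun u v huv => by
      obtain ⟨x, y, hxy, rfl, rfl⟩ := (hA u v).1 huv
      exact (hA _ _).2 ⟨g • x, g • y, by rwa [dist_smul], rfl, rfl⟩
  have iso : IsIsometricSMul G (Quotient r) := ⟨fun g => Isometry.of_dist_eq fun u v => by
    refine le_antisymm (hle g u v) ?_
    have := hle g⁻¹ (g • u) (g • v)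
    rwa [inv_smul_smul, inv_smul_smul] at this⟩
  refine ⟨Quotient r, mY, sY, act, iso, p, hsurj, heq, hp,
    fun x y h => (hA _ _).2 ⟨x, y, h, rfl, rfl⟩, ?_, ?_⟩
  · intro x b hb
    obtain ⟨x', y, hxy, hx, rfl⟩ := (hA _ _).1 hb
    obtain ⟨n, hn, rfl⟩ := (hp _ _).1 hx
    exact ⟨n • y, by rwa [dist_smul], ((hp _ _).2 ⟨n, hn, rfl⟩).symm⟩
  · intro x y x' y' hxy hxy' hx hy
    obtain ⟨h, hne, hinv, hc⟩ := ex_cross N hN x y hxy
    obtain ⟨n, hn, rfl⟩ := (hp _ _).1 hx
    obtain ⟨m, hm, rfl⟩ := (hp _ _).1 hy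
    exact hc _ _ hxy' (by rwa [hinv n hn]) (hinv m hm y)

end Pool.Agent.MP_3ce0a0_al.Q2T2
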