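import Pool.Agent.MP_3ce0a0_al.Q2T2.Spec

/-! Barycentric subdivision of a simplicial tree. -/

set_option autoImplicit false

namespace Pool.Agent.MP_3ce0a0_al.Q2T2

open Q2T1

namespace RSubdiv

noncomputable section

theorem ind {X : Type} [MetricSpace X] [IsSimp X] (P : X → X → Prop) (h0 : ∀ x, P x x)
    (h1 : ∀ x z y, dist x z = 1 → Btw x z y → P z y → P x y) (x y : X) : P x y := by
  obtain ⟨n, hn⟩ := IsSimp.int x y
  induction n generalizing x with
  | zero =>
    rw [Nat.cast_zero, dist_eq_zero] at hn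
    exact hn ▸ h0 x
  | succ n ih =>
    have hne : x ≠ y := by
      rintro rfl
      rw [dist_self] at hn
      exact absurd hn (by positivity : (0 : ℝ) < ((n + 1 : ℕ) : ℝ)).ne
    obtain ⟨z, hz, hb⟩ := IsSimp.geo x y hne
    refine h1 x z y hz hb (ih z ?_)
    unfold Q2T1.Btw at hb
    push_cast at hn
    linarith

theorem lip {X Z : Type} [MetricSpace X] [IsSimp X] [PseudoMetricSpace Z] (f : X → Z) (c : ℝ)
    (h : ∀ x y, dist x y = 1 → dist (f x) (f y) ≤ c) (x y : X) :
    dist (f x) (f y) ≤ c * dist x y := by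
  refine ind (fun x y => dist (f x) (f y) ≤ c * dist x y) (fun x => by simp) ?_ x y
  intro x z y h1 h2 h3
  unfold Q2T1.Btw at h2
  rw [← h2, h1, mul_add, mul_one]
  exact (dist_triangle _ (f z) _).trans (add_le_add (h x z h1) h3)

theorem edge_or {X : Type} [MetricSpace X] [IsSimp X] {x y : X} (h : dist x y = 1) (p : X) :
    dist p y = dist p x + 1 ∨ dist p x = dist p y + 1 := by
  obtain ⟨m, h1, h2, h3⟩ := IsTree.ex_med p x y
  obtain ⟨a, ha⟩ := IsSimp.int x m
  obtain ⟨b, hb⟩ := IsSimp.int m y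
  unfold Q2T1.Btw at h1 h2 h3
  rw [dist_comm m x] at h1
  have hab : a + b = 1 := by
    rw [ha, hb, h] at h2
    exact_mod_cast h2
  rcases Nat.eq_zero_or_pos a with h0 | h0
  · left
    rw [h0, Nat.cast_zero] at ha
    linarith
  · right
    rw [show b = 0 by omega, Nat.cast_zero] at hb
    linarith

theorem edge_eq {X : Type} [MetricSpace X] [IsSimp X] {x y p q : X} (h : dist x y = 1)
    (h' : dist p q = 1) (hp : ¬ dist p y < dist p x) (hq : dist q y < dist q x) :
    p = x ∧ q = y := by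
  have h1 : dist p y = dist p x + 1 := (edge_or h p).resolve_right fun e => hp (by linarith)
  have h2 : dist q x = dist q y + 1 := (edge_or h q).resolve_left fun e => by linarith
  have h4 := IsTree.four p y q x
  rw [dist_comm y x, dist_comm y q] at h4
  have n1 := dist_nonneg (x := p) (y := x)
  have n2 := dist_nonneg (x := q) (y := y)
  rcases le_max_iff.1 h4 with k | k
  · exact ⟨dist_eq_zero.1 (by linarith), dist_eq_zero.1 (by linarith)⟩
  · linarith

/-- Vertices and edges. -/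
def V (X : Type) [MetricSpace X] : Type :=
  {s : Sym2 X // ∃ x y, (x = y ∨ dist x y = 1) ∧ s = s(x, y)}

variable {G X : Type} [Group G] [MetricSpace X]

/-- A vertex. -/
def j (x : X) : V X := ⟨s(x, x), x, x, Or.inl rfl, rfl⟩

open Classical in
/-- The midpoint of an edge. -/
def m (x y : X) : V X := if h : dist x y = 1 then ⟨s(x, y), x, y, Or.inr h, rfl⟩ else j x

theorem m_val {x y : X} (h : dist x y = 1) : (m x y).1 = s(x, y) := by
  rw [m, dif_pos h]

theorem m_comm {x y : X} (h : dist x y = 1) : m x y = m y x :=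
  Subtype.ext (by rw [m_val h, m_val (dist_comm x y ▸ h), Sym2.eq_swap])

theorem ne_of {x y : X} (h : dist x y = 1) : x ≠ y := by
  rintro rfl
  simp at h

theorem cases (z : V X) : (∃ x, z = j x) ∨ ∃ x y, dist x y = 1 ∧ z = m x y := by
  obtain ⟨s, x, y, h | h, rfl⟩ := z
  · exact Or.inl ⟨x, by subst h; rfl⟩
  · exact Or.inr ⟨x, y, h, Subtype.ext (m_val h).symm⟩

/-- Adjacency. -/
def A (z z' : V X) : Prop :=
  ∃ x y, dist x y = 1 ∧ ((z = j x ∧ z' = m x y) ∨ (z' = j x ∧ z = m x y))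

theorem A.symm {z z' : V X} (h : A z z') : A z' z := by
  obtain ⟨x, y, h1, h2⟩ := h
  exact ⟨x, y, h1, h2.symm⟩

theorem conn [IsSimp X] (z z' : V X) : Relation.ReflTransGen A z z' := by
  have h1 : ∀ x y : X, Relation.ReflTransGen A (j x) (j y) := by
    refine ind (fun x y => Relation.ReflTransGen A (j x) (j y)) (fun _ => .refl) ?_
    intro x z y h _ h3
    exact .head ⟨x, z, h, Or.inl ⟨rfl, rfl⟩⟩
      (.head ⟨z, x, dist_comm x z ▸ h, Or.inr ⟨rfl, m_comm h⟩⟩ h3)
  have h2 : ∀ z : V X, ∃ x, Relation.ReflTransGen A z (j x) ∧ Relation.ReflTransGen A (j x) z := by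
    intro z
    rcases cases z with ⟨x, rfl⟩ | ⟨x, y, h, rfl⟩
    · exact ⟨x, .refl, .refl⟩
    · exact ⟨x, .single ⟨x, y, h, Or.inr ⟨rfl, rfl⟩⟩, .single ⟨x, y, h, Or.inl ⟨rfl, rfl⟩⟩⟩
  obtain ⟨x, hx, -⟩ := h2 z
  obtain ⟨y, -, hy⟩ := h2 z'
  exact hx.trans ((h1 x y).trans hy)

theorem side [IsSimp X] {x y : X} (h : dist x y = 1) : ∃ s : Set (V X), j x ∉ s ∧ m x y ∈ s ∧
    ∀ u v, A u v → u ∉ s → v ∈ s → u = j x ∧ v = m x y := by
  refine ⟨{z | ∃ p ∈ z.1, dist p y < dist p x}, ?_, ⟨y, ?_, ?_⟩, ?_⟩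
  · rintro ⟨p, hp, hlt⟩
    have : p = x := by simpa [j] using hp
    rw [this, dist_self, h] at hlt
    linarith
  · rw [m_val h]
    exact Sym2.mem_mk_right _ _
  · rw [dist_self, dist_comm, h]
    exact one_pos
  · rintro u v ⟨p, q, hpq, ⟨rfl, rfl⟩ | ⟨rfl, rfl⟩⟩ hu ⟨w, hw, hlt⟩
    · have hp : ¬ dist p y < dist p x := fun k => hu ⟨p, Sym2.mem_mk_left _ _, k⟩
      rw [m_val hpq, Sym2.mem_iff] at hw
      rcases hw with rfl | rfl
      · exact absurd hlt hp
      · obtain ⟨rfl, rfl⟩ := edge_eq h hpq hp hlt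
        exact ⟨rfl, rfl⟩
    · have : w = p := by simpa [j] using hw
      subst this
      exact absurd ⟨w, by rw [m_val hpq]; exact Sym2.mem_mk_left _ _, hlt⟩ hu

theorem sides [IsSimp X] (a b : V X) (h : A a b) : ∃ s : Set (V X), a ∉ s ∧ b ∈ s ∧
    ∀ u v, A u v → u ∉ s → v ∈ s → u = a ∧ v = b := by
  obtain ⟨x, y, h, ⟨rfl, rfl⟩ | ⟨rfl, rfl⟩⟩ := h
  · exact side h
  · obtain ⟨s, h1, h2, h3⟩ := side h
    exact ⟨sᶜ, not_not.2 h2, h1, fun u v k hu hv => (h3 v u k.symm hv (not_not.1 hu)).symm⟩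

variable [MulAction G X] [IsIsometricSMul G X]

/-- The action. -/
@[reducible] def act : MulAction G (V X) where
  smul g z := ⟨z.1.map fun x => g • x, by
    obtain ⟨x, y, h, hz⟩ := z.2
    exact ⟨g • x, g • y, h.imp (congrArg _) fun h => by rwa [dist_smul], by rw [hz]; rfl⟩⟩
  one_smul z := Subtype.ext (by
    change z.1.map (fun x => (1 : G) • x) = z.1
    simp only [one_smul, Sym2.map_id', id])
  mul_smul g h z := Subtype.ext (by
    change z.1.map (fun x => (g * h) • x) = (z.1.map fun x => h • x).map fun x => g • x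
    rw [Sym2.map_map]
    exact congrArg (fun f => z.1.map f) (funext fun x => mul_smul g h x))

end

end RSubdiv

open RSubdiv in
theorem sSubdiv (hG : SGraph) : SSubdiv := by
  intro G X _ _ _ _ _
  obtain ⟨mY, sY, hA⟩ := hG (V X) A (fun _ _ => A.symm) conn sides
  let aY : MulAction G (V X) := act
  have hval : ∀ (g : G) (z : V X), (g • z).1 = z.1.map fun x => g • x := fun _ _ => rfl
  have hj : ∀ (g : G) (x : X), j (g • x) = g • j x := fun _ _ => rfl
  have hm : ∀ (g : G) (x y : X), dist x y = 1 → m (g • x) (g • y) = g • m x y := by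
    intro g x y h
    refine Subtype.ext ?_
    rw [hval, m_val h, m_val (by rwa [dist_smul])]
    rfl
  have hl : ∀ (g : G) (z z' : V X), dist (g • z) (g • z') ≤ dist z z' := by
    intro g z z'
    refine (lip (fun z : V X => g • z) 1 (fun u v h => le_of_eq ((hA _ _).2 ?_)) z z').trans_eq
      (one_mul _)
    obtain ⟨x, y, h1, h2⟩ := (hA _ _).1 h
    refine ⟨g • x, g • y, by rwa [dist_smul], ?_⟩
    rw [hj, hm g x y h1]
    exact h2.imp (fun k => ⟨congrArg _ k.1, congrArg _ k.2⟩) fun k => ⟨congrArg _ k.1, congrArg _ k.2⟩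
  have iY : IsIsometricSMul G (V X) := ⟨fun g => Isometry.of_dist_eq fun z z' =>
    le_antisymm (hl g z z') (by simpa only [inv_smul_smul] using hl g⁻¹ (g • z) (g • z'))⟩
  have hjm : ∀ x y : X, dist x y = 1 → dist (j x) (m x y) = 1 := fun x y h =>
    (hA _ _).2 ⟨x, y, h, Or.inl ⟨rfl, rfl⟩⟩
  refine ⟨V X, mY, sY, aY, iY, j, m, hj, fun x y => le_antisymm (lip j 2 (fun u v h => ?_) x y) ?_,
    hm, fun x y h => ⟨m_comm h, hjm x y h⟩, fun x y x' y' h h' e => ?_, cases,
    fun z z' h => (hA _ _).1 h, fun g _ z h => ?_⟩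
  · have h1 := dist_triangle (j u) (m u v) (j v)
    have h2 := hjm v u (dist_comm u v ▸ h)
    rw [← m_comm h, dist_comm] at h2
    rw [hjm u v h, h2] at h1
    linarith
  · let f : V X → ℝ := fun z => Sym2.lift ⟨fun p q => dist x p + dist x q,
      fun _ _ => add_comm _ _⟩ z.1
    have f1 : ∀ p, f (j p) = dist x p + dist x p := fun _ => rfl
    have f2 : ∀ p q, dist p q = 1 → dist (f (j p)) (f (m p q)) ≤ 1 := by
      intro p q h
      have : f (m p q) = dist x p + dist x q := by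
        change Sym2.lift _ (m p q).1 = _
        rw [m_val h]
        rfl
      rw [f1, this, dist_add_left, ← h]
      exact dist_dist_dist_le_right x p q
    have h1 := lip f 1 (fun u v h => by
      obtain ⟨p, q, k, ⟨rfl, rfl⟩ | ⟨rfl, rfl⟩⟩ := (hA _ _).1 h
      · exact f2 p q k
      · rw [dist_comm]
        exact f2 p q k) (j x) (j y)
    rw [f1, f1, dist_self, one_mul, Real.dist_eq] at h1
    have := neg_abs_le (0 + 0 - (dist x y + dist x y))
    linarith
  · have := congrArg Subtype.val e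
    rwa [m_val h, m_val h', Sym2.eq_iff] at this
  · exfalso
    obtain ⟨x, y, k, ⟨rfl, e⟩ | ⟨e, rfl⟩⟩ := (hA _ _).1 h
    · have := congrArg Subtype.val e
      rw [← hj, m_val k] at this
      rcases Sym2.eq_iff.1 this with ⟨e1, e2⟩ | ⟨e1, e2⟩
      · exact ne_of k (e1.symm.trans e2)
      · exact ne_of k (e2.symm.trans e1)
    · have := congrArg Subtype.val e
      rw [← hm g x y k, m_val (by rwa [dist_smul])] at this
      rcases Sym2.eq_iff.1 this with ⟨e1, e2⟩ | ⟨e1, e2⟩
      · exact ne_of k (MulAction.injective g (e1.trans e2.symm))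
      · exact ne_of k (MulAction.injective g (e1.trans e2.symm))

end Pool.Agent.MP_3ce0a0_al.Q2T2
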