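import Pool.Agent.MP_3ce0a0_al.Q2T2.BU
import Pool.Agent.MP_3ce0a0_al.Q2T2.RCol
import Pool.Agent.MP_3ce0a0_al.Q2T2.RMin
import Pool.Agent.MP_3ce0a0_al.Q2T2.RNbr
import Pool.Agent.MP_3ce0a0_al.Q2T2.RQuo
import Pool.Agent.MP_3ce0a0_al.Q2T2.RSubdiv

/-! Operations on simplicial trees: all statements, and properties of blow-ups. -/

namespace Pool.Agent.MP_3ce0a0_al.Q2T2

open Q2T1 MulAction

theorem col : SCol := sCol sGraph

theorem quo : SQuo := sQuo sGraph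

theorem subdiv : SSubdiv := sSubdiv sGraph

/-- The conclusion of the blow-up statement. -/
structure IsBU {G T Z ι : Type} [Group G] [MetricSpace T] [MulAction G T] [MetricSpace Z]
    [MulAction G Z] (x : ι → T) {Y : ι → Type} [∀ i, MetricSpace (Y i)]
    [∀ i, MulAction (stabilizer G (x i)) (Y i)] (p : Z → T) (j : ∀ i, Y i → Z) : Prop where
  rep : ∀ v, ∃ i, ∃ g : G, g • x i = v
  col : Col p
  equi : ∀ (g : G) z, p (g • z) = g • p z
  isom : ∀ i, Isometry (j i)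
  smul : ∀ i (g : stabilizer G (x i)) y, j i (g • y) = (g : G) • j i y
  fib : ∀ i z, p z = x i ↔ ∃ y, j i y = z

namespace IsBU

variable {G T Z ι : Type} [Group G] [MetricSpace T] [MulAction G T] [MetricSpace Z]
  [MulAction G Z] {x : ι → T} {Y : ι → Type} [∀ i, MetricSpace (Y i)]
  [∀ i, MulAction (stabilizer G (x i)) (Y i)] {p : Z → T} {j : ∀ i, Y i → Z}
  (h : IsBU (G := G) x p j)
include h

theorem p_j (i : ι) (y : Y i) : p (j i y) = x i := (h.fib i _).2 ⟨y, rfl⟩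

theorem vert (z : Z) : ∃ (i : ι) (g : G) (y : Y i), z = g • j i y := by
  obtain ⟨i, g, hg⟩ := h.rep (p z)
  obtain ⟨y, hy⟩ := (h.fib i (g⁻¹ • z)).1 (by rw [h.equi, ← hg, inv_smul_smul])
  exact ⟨i, g, y, by rw [hy, smul_inv_smul]⟩

/-- The stabiliser of a vertex of the blow-up. -/
theorem fix_iff {i : ι} {y : Y i} {g : G} :
    g • j i y = j i y ↔ ∃ hg : g ∈ stabilizer G (x i), (⟨g, hg⟩ : stabilizer G (x i)) • y = y := by
  refine ⟨fun e => ?_, fun ⟨hg, e⟩ => (h.smul i ⟨g, hg⟩ y).symm.trans (by rw [e])⟩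
  have hg : g ∈ stabilizer G (x i) := by
    rw [mem_stabilizer_iff, ← h.p_j i y, ← h.equi, e]
  exact ⟨hg, (h.isom i).injective ((h.smul i ⟨g, hg⟩ y).trans e)⟩

variable [IsIsometricSMul G Z]

/-- An edge inside a fibre is a translate of an edge of one of the trees. -/
theorem edge {z z' : Z} (h1 : dist z z' = 1) (h2 : p z = p z') :
    ∃ (i : ι) (g : G) (y y' : Y i), dist y y' = 1 ∧ z = g • j i y ∧ z' = g • j i y' := by
  obtain ⟨i, g, y, rfl⟩ := h.vert z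
  obtain ⟨y', hy⟩ := (h.fib i (g⁻¹ • z')).1 (by
    rw [h.equi, ← h2, h.equi, inv_smul_smul, h.p_j])
  refine ⟨i, g, y, y', ?_, rfl, by rw [hy, smul_inv_smul]⟩
  rw [← (h.isom i).dist_eq, hy, ← dist_smul g, smul_inv_smul, h1]

theorem noInv {U : Subgroup G} [U.Normal] (hT : NoInv T U)
    (hY : ∀ i, NoInv (Y i) (U.comap (stabilizer G (x i)).subtype)) : NoInv Z U := by
  intro g hg z h1 h2
  rcases h.col.adj _ _ h1 with e | e
  · obtain ⟨i, k, y, rfl⟩ := h.vert z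
    have e1 : k⁻¹ * g * k ∈ stabilizer G (x i) := by
      rw [h.equi, h.equi, h.equi, h.p_j] at e
      rw [mem_stabilizer_iff, mul_smul, mul_smul, ← e, inv_smul_smul]
    have e2 : ∀ y, j i ((⟨_, e1⟩ : stabilizer G (x i)) • y) = k⁻¹ • g • k • j i y := fun y => by
      rw [h.smul, mul_smul, mul_smul]
    refine hY i ⟨_, e1⟩ (‹U.Normal›.conj_mem' g hg k) y ?_ ((h.isom i).injective ?_)
    · rw [← (h.isom i).dist_eq, e2, ← dist_smul k, smul_inv_smul, h1]
    · rw [e2, e2, smul_inv_smul, h2, inv_smul_smul]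
  · rw [h.equi] at e
    exact hT g hg _ e (by rw [← h.equi, ← h.equi, h2])

theorem te {U : Subgroup G} [U.Normal] (hT : TE T U)
    (hY : ∀ i, TE (Y i) (U.comap (stabilizer G (x i)).subtype)) : TE Z U := by
  intro g hg z z' h1 h2 h3
  rcases h.col.adj _ _ h1 with e | e
  · obtain ⟨i, k, y, y', k1, rfl, rfl⟩ := h.edge h1 e
    obtain ⟨e1, e2⟩ := h.fix_iff.1 (show (k⁻¹ * g * k) • j i y = j i y by
      rw [mul_smul, mul_smul, h2, inv_smul_smul])
    obtain ⟨_, e3⟩ := h.fix_iff.1 (show (k⁻¹ * g * k) • j i y' = j i y' by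
      rw [mul_smul, mul_smul, h3, inv_smul_smul])
    have := congrArg Subtype.val
      (hY i ⟨_, e1⟩ (‹U.Normal›.conj_mem' g hg k) y y' k1 e2 e3)
    have e4 : k⁻¹ * g * k = 1 := this
    rwa [mul_assoc, inv_mul_eq_one, right_eq_mul] at e4
  · exact hT g hg _ _ e (by rw [← h.equi, h2]) (by rw [← h.equi, h3])

/-- Cocompactness of the blow-up when the `x i` are finitely many and meet all `U`-orbits. -/
theorem cocpt [IsSimp Z] [IsSimp T] [Finite ι] {U : Subgroup G}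
    (hU : ∀ v, ∃ i, ∃ g ∈ U, g • x i = v) (hT : Cocpt U T)
    (hY : ∀ i, Cocpt (U.comap (stabilizer G (x i)).subtype) (Y i)) : Cocpt U Z := by
  choose R hR k using fun i => (hY i).finV
  choose R' hR' k' using fun i => (hY i).finE
  obtain ⟨E, hE, kE⟩ := hT.finE
  have key : ∀ z, ∃ i, ∃ g ∈ U, ∃ y, g • z = j i y := fun z => by
    obtain ⟨i, g, hg, e⟩ := hU (p z)
    obtain ⟨y, hy⟩ := (h.fib i (g⁻¹ • z)).1 (by rw [h.equi, ← e, inv_smul_smul])
    exact ⟨i, g⁻¹, inv_mem hg, y, hy.symm⟩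
  refine ⟨⟨⋃ i, j i '' R i, Set.finite_iUnion fun i => (hR i).image _, fun z => ?_⟩,
    ⟨(⋃ i, Prod.map (j i) (j i) '' R' i) ∪
      {d | dist d.1 d.2 = 1 ∧ p d.1 ≠ p d.2 ∧ (p d.1, p d.2) ∈ E},
      (Set.finite_iUnion fun i => (hR' i).image _).union ?_, fun z z' h1 => ?_⟩⟩
  · obtain ⟨i, g, hg, y, e⟩ := key z
    obtain ⟨u, hu, e'⟩ := k i y
    exact ⟨u * g, mul_mem hu hg, Set.mem_iUnion.2 ⟨i, _, e', by rw [h.smul, mul_smul, e]⟩⟩
  · refine Set.Finite.of_finite_image (f := Prod.map p p) (hE.subset ?_) ?_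
    · rintro _ ⟨d, hd, rfl⟩
      exact hd.2.2
    · intro d hd d' hd' e
      have := h.col.inj hd.1 hd'.1 hd.2.1 (congrArg Prod.fst e) (congrArg Prod.snd e)
      exact Prod.ext this.1 this.2
  · rcases h.col.adj _ _ h1 with e | e
    · obtain ⟨i, g, hg, y, e1⟩ := key z
      obtain ⟨y', e2⟩ := (h.fib i (g • z')).1 (by rw [h.equi, ← e, ← h.equi, e1, h.p_j])
      obtain ⟨u, hu, e'⟩ := k' i y y' (by rw [← (h.isom i).dist_eq, ← e1, e2, dist_smul, h1])
      refine ⟨u * g, mul_mem hu hg, Or.inl (Set.mem_iUnion.2 ⟨i, _, e', Prod.ext ?_ ?_⟩)⟩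
      · simp only [Prod.map_fst, h.smul, mul_smul, e1]
      · simp only [Prod.map_snd, h.smul, mul_smul, e2]
    · obtain ⟨g, hg, e1⟩ := kE _ _ e
      refine ⟨g, hg, Or.inr ⟨by simpa using h1, ?_, by simpa only [h.equi] using e1⟩⟩
      simpa only [h.equi, Ne, smul_left_cancel_iff] using ne_of_edge e

omit [IsIsometricSMul G Z] in
/-- An element is elliptic in the blow-up iff a conjugate fixes a vertex of one of the trees. -/
theorem ell_iff {g : G} : Ell Z g ↔ ∃ (i : ι) (k : G) (hg : k⁻¹ * g * k ∈ stabilizer G (x i)),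
    Ell (Y i) (⟨_, hg⟩ : stabilizer G (x i)) := by
  constructor
  · rintro ⟨z, hz⟩
    obtain ⟨i, k, y, rfl⟩ := h.vert z
    obtain ⟨e1, e2⟩ := h.fix_iff.1 (show (k⁻¹ * g * k) • j i y = j i y by
      rw [mul_smul, mul_smul, hz, inv_smul_smul])
    exact ⟨i, k, e1, y, e2⟩
  · rintro ⟨i, k, hg, y, hy⟩
    have := h.fix_iff.2 ⟨hg, hy⟩
    rw [mul_smul, mul_smul, inv_smul_eq_iff] at this
    exact ⟨_, this⟩

end IsBU

/-- The blow-up, packaged. -/
theorem bu {G T ι : Type} [Group G] [MetricSpace T] [IsSimp T] [MulAction G T]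
    [IsIsometricSMul G T] (x : ι → T) (Y : ι → Type) [∀ i, MetricSpace (Y i)] [∀ i, IsSimp (Y i)]
    [∀ i, Nonempty (Y i)] [∀ i, MulAction (stabilizer G (x i)) (Y i)]
    [∀ i, IsIsometricSMul (stabilizer G (x i)) (Y i)] (h1 : ∀ v, ∃ i, ∃ g : G, g • x i = v)
    (h2 : ∀ i i' (g : G), g • x i = x i' → i = i')
    (h3 : ∀ i w, dist (x i) w = 1 →
      ∃ q : Y i, ∀ g : stabilizer G (x i), (g : G) • w = w → g • q = q) :
    ∃ (Z : Type) (_ : MetricSpace Z) (_ : IsSimp Z) (_ : MulAction G Z) (_ : IsIsometricSMul G Z)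
      (p : Z → T) (j : ∀ i, Y i → Z), IsBU (G := G) x p j := by
  obtain ⟨Z, m, s, a, i, p, j, k1, k2, k3⟩ := sBU G T ι x Y h1 h2 h3
  exact ⟨Z, m, s, a, i, p, j, h1, k1, k2, fun i => (k3 i).1, fun i => (k3 i).2.1,
    fun i => (k3 i).2.2⟩

end Pool.Agent.MP_3ce0a0_al.Q2T2
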