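import Pool.Agent.MP_3ce0a0_al.Q2T2.Spec

/-! Edges of simplicial trees and collapse maps. -/

namespace Pool.Agent.MP_3ce0a0_al.Q2T2

open Q2T1 MulAction

section Simp

variable {X : Type} [MetricSpace X]

theorem ne_of_edge {x y : X} (h : dist x y = 1) : x ≠ y := by
  rintro rfl
  simp at h

theorem edge_symm {x y : X} (h : dist x y = 1) : dist y x = 1 := by rw [dist_comm, h]

variable [IsSimp X]

theorem one_le_dist {x y : X} (h : x ≠ y) : 1 ≤ dist x y := by
  obtain ⟨n, hn⟩ := IsSimp.int x y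
  have h0 : 0 < dist x y := dist_pos.2 h
  rw [hn] at h0 ⊢
  exact_mod_cast h0

theorem btw_edge {x y z : X} (h : dist x y = 1) (hz : Btw x z y) : z = x ∨ z = y := by
  by_contra hn
  push Not at hn
  have h1 := one_le_dist hn.1.symm
  have h2 := one_le_dist hn.2
  unfold Q2T1.Btw at hz
  linarith

/-- Every vertex lies on one side of an edge. -/
theorem edge_or {a b : X} (h : dist a b = 1) (w : X) : Btw a b w ∨ Btw b a w := by
  rcases btw_edge h (med_btw12 a b w) with h1 | h1
  · exact Or.inr (med_eq_left_iff.1 h1)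
  · exact Or.inl (med_eq_mid_iff.1 h1)

theorem edge_not_both {a b w : X} (h : dist a b = 1) (h1 : Btw a b w) : ¬Btw b a w :=
  fun h2 => ne_of_edge h (h1.antisymm' h2)

theorem not_btw_iff {a b w : X} (h : dist a b = 1) : ¬Btw a b w ↔ Btw b a w :=
  ⟨fun h1 => (edge_or h w).resolve_left h1, fun h1 => edge_not_both (edge_symm h) h1⟩

/-- Two different edges at one vertex form a geodesic. -/
theorem btw_of_edges {a b c : X} (h : dist a b = 1) (h' : dist b c = 1) (hne : a ≠ c) :
    Btw a b c := by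
  refine (edge_or h c).resolve_right fun h1 => hne ?_
  unfold Q2T1.Btw at h1
  rw [edge_symm h, h'] at h1
  exact dist_eq_zero.1 (by linarith)

/-- Only the edge itself crosses from one of its sides to the other. -/
theorem edge_cross {a b x y : X} (h : dist a b = 1) (h' : dist x y = 1) (hx : ¬Btw a b x)
    (hy : Btw a b y) : x = a ∧ y = b := by
  rcases btw_edge h' ((hy.or x).resolve_left hx) with rfl | rfl
  · exact absurd (btw_right _ _) hx
  · exact ⟨by_contra fun hn => hx (btw_of_edges h (edge_symm h') (Ne.symm hn)), rfl⟩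

theorem exists_last {x y : X} (h : x ≠ y) : ∃ z, dist z y = 1 ∧ Btw x z y := by
  obtain ⟨z, h1, h2⟩ := IsSimp.geo y x h.symm
  exact ⟨z, edge_symm h1, h2.symm⟩

/-- Induction along geodesics from a base point. -/
theorem geo_ind {P : X → Prop} (x₀ : X) (h0 : P x₀)
    (hs : ∀ x y, dist x y = 1 → Btw x₀ x y → P x → P y) (x : X) : P x := by
  obtain ⟨n, hn⟩ := IsSimp.int x₀ x
  induction n generalizing x with
  | zero => exact (dist_eq_zero.1 (by simpa using hn)) ▸ h0
  | succ n ih =>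
    have hne : x₀ ≠ x := by
      rintro rfl
      rw [dist_self] at hn
      exact absurd hn (by positivity : (0 : ℝ) < ((n + 1 : ℕ) : ℝ)).ne
    obtain ⟨z, h1, h2⟩ := exists_last hne
    refine hs z x h1 h2 (ih z ?_)
    unfold Q2T1.Btw at h2
    push_cast at hn
    linarith

/-- Induction along one segment. -/
theorem seg_ind {P : X → Prop} {x y : X} (h0 : P x)
    (hs : ∀ a b, dist a b = 1 → Btw x a b → Btw x b y → P a → P b) : P y :=
  geo_ind (P := fun z => Btw x z y → P z) x (fun _ => h0)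
    (fun a b h1 h2 h3 h4 => hs a b h1 h2 h4 (h3 (h2.trans_left h4))) y (btw_right _ _)

/-- A set that separates two vertices is entered along an edge of the segment. -/
theorem exists_cross {s : Set X} {x y : X} (hx : x ∉ s) (hy : y ∈ s) :
    ∃ a b, dist a b = 1 ∧ Btw x a b ∧ Btw x b y ∧ a ∉ s ∧ b ∈ s := by
  by_contra hn
  push Not at hn
  exact seg_ind (P := fun z => z ∉ s) hx hn hy

theorem rtg_of_conv {C : Set X} (hC : Conv C) {x y : X} (hx : x ∈ C) (hy : y ∈ C) :
    Relation.ReflTransGen (fun a b => dist a b = 1 ∧ a ∈ C ∧ b ∈ C) x y :=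
  seg_ind (P := fun z => Relation.ReflTransGen (fun a b => dist a b = 1 ∧ a ∈ C ∧ b ∈ C) x z)
    Relation.ReflTransGen.refl fun a b h1 h2 h3 h4 =>
      h4.tail ⟨h1, hC x hx y hy a (h2.trans_left h3), hC x hx y hy b h3⟩

variable {Y : Type} [MetricSpace Y]

theorem lip_of_edge {f : X → Y} {L : ℝ} (h : ∀ x y, dist x y = 1 → dist (f x) (f y) ≤ L)
    (x y : X) : dist (f x) (f y) ≤ L * dist x y := by
  refine geo_ind (P := fun y => dist (f x) (f y) ≤ L * dist x y) x (by simp) ?_ y
  intro a b h1 h2 h3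
  have h4 := dist_triangle (f x) (f a) (f b)
  have h5 := h a b h1
  unfold Q2T1.Btw at h2
  rw [← h2, h1, mul_add, mul_one]
  linarith

/-- An action that preserves adjacency is isometric. -/
theorem isom_of_edge {G : Type} [Group G] [MulAction G X]
    (h : ∀ (g : G) (x y : X), dist x y = 1 → dist (g • x) (g • y) = 1) : IsIsometricSMul G X := by
  have k : ∀ (g : G) (x y : X), dist (g • x) (g • y) ≤ dist x y := fun g x y => by
    simpa using lip_of_edge (f := fun x : X => g • x) (fun x y h1 => (h g x y h1).le) x y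
  refine ⟨fun g => Isometry.of_dist_eq fun x y => le_antisymm (k g x y) ?_⟩
  simpa using k g⁻¹ (g • x) (g • y)

variable [IsSimp Y]

/-- A simplicial map that is injective on the edges it keeps preserves betweenness. -/
theorem btw_of_inj {p : X → Y} (adj : ∀ x y, dist x y = 1 → p x = p y ∨ dist (p x) (p y) = 1)
    (inj : ∀ x y x' y', dist x y = 1 → dist x' y' = 1 → p x ≠ p y → p x = p x' → p y = p y' →
      x = x' ∧ y = y') {x z y : X} (h : Btw x z y) : Btw (p x) (p z) (p y) := by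
  by_contra hn
  have hm : p z ≠ med (p x) (p z) (p y) := fun e => hn (med_eq_mid_iff.1 e.symm)
  obtain ⟨b, hb, hb'⟩ := IsSimp.geo _ _ hm
  have key : ∀ w, Btw (p z) b (p w) →
      ∃ u u', dist u u' = 1 ∧ Btw z u' w ∧ p u = p z ∧ p u' = b := fun w hw => by
    obtain ⟨u, u', h1, -, h3, h4, h5⟩ := exists_cross (s := {w | Btw (p z) b (p w)}) (x := z)
      (fun h1 => ne_of_edge hb (Btw.eq_of_self h1).symm) hw
    rcases adj u u' h1 with h6 | h6
    · exact absurd (show Btw (p z) b (p u) from h6 ▸ h5) h4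
    · exact ⟨u, u', h1, h3, edge_cross hb h6 h4 h5⟩
  obtain ⟨u, u', a1, a2, a3, a4⟩ := key x (hb'.trans_left (med_btw12 _ _ _).symm)
  obtain ⟨t, t', b1, b2, b3, b4⟩ := key y (hb'.trans_left (med_btw23 _ _ _))
  obtain ⟨-, rfl⟩ := inj u u' t t' a1 b1 (by rw [a3, a4]; exact ne_of_edge hb) (a3.trans b3.symm)
    (a4.trans b4.symm)
  have : u' = z := a2.symm.antisymm (h.trans_right' b2)
  exact ne_of_edge hb (this ▸ a4)

theorem isometry_of_btw {f : X → Y} (h : ∀ x y, dist x y = 1 → dist (f x) (f y) = 1)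
    (hb : ∀ x z y, Btw x z y → Btw (f x) (f z) (f y)) : Isometry f := by
  refine Isometry.of_dist_eq fun x y => ?_
  refine geo_ind (P := fun y => dist (f x) (f y) = dist x y) x (by simp) ?_ y
  intro a b h1 h2 h3
  have h4 := hb x a b h2
  unfold Q2T1.Btw at h2 h4
  rw [← h2, ← h4, h3, h a b h1, h1]

/-- An injective map that preserves adjacency is an isometry. -/
theorem isometry_of_edge {f : X → Y} (hf : Function.Injective f)
    (h : ∀ x y, dist x y = 1 → dist (f x) (f y) = 1) : Isometry f :=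
  isometry_of_btw h fun _ _ _ => btw_of_inj (fun x y h1 => Or.inr (h x y h1))
    fun _ _ _ _ _ _ _ h1 h2 => ⟨hf h1, hf h2⟩

theorem Col.of_inj {p : X → Y} (onto : Function.Surjective p)
    (adj : ∀ x y, dist x y = 1 → p x = p y ∨ dist (p x) (p y) = 1)
    (inj : ∀ x y x' y', dist x y = 1 → dist x' y' = 1 → p x ≠ p y → p x = p x' → p y = p y' →
      x = x' ∧ y = y') : Col p :=
  ⟨onto, fun _ _ _ => btw_of_inj adj inj, adj⟩

namespace Col

variable {p : X → Y} (h : Col p)
include h

omit [IsSimp Y] in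
theorem lip (x y : X) : dist (p x) (p y) ≤ dist x y := by
  simpa using lip_of_edge (f := p) (L := 1)
    (fun x y h1 => (h.adj x y h1).elim (fun e => by simp [e]) le_of_eq) x y

omit [IsSimp X] [IsSimp Y] in
theorem conv {C : Set Y} (hC : Conv C) : Conv (p ⁻¹' C) :=
  fun x hx y hy z hz => hC _ hx _ hy _ (h.btw x z y hz)

omit [IsSimp X] [IsSimp Y] in
theorem conv_fib (v : Y) : Conv {x | p x = v} := h.conv (conv_singleton v)

omit [IsSimp X] [IsSimp Y] in
theorem edge {x y : X} (h1 : dist x y = 1) (h2 : p x ≠ p y) : dist (p x) (p y) = 1 :=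
  (h.adj x y h1).resolve_left h2

/-- Between lifts of the ends of an edge there is a lift of the edge. -/
theorem lift_btw {x y : X} (h1 : dist (p x) (p y) = 1) :
    ∃ a b, dist a b = 1 ∧ Btw x a b ∧ Btw x b y ∧ p a = p x ∧ p b = p y := by
  obtain ⟨a, b, k1, k2, k3, k4, k5⟩ := exists_cross (s := {w | p w = p y}) (x := x)
    (ne_of_edge h1) (show y ∈ {w | p w = p y} from rfl)
  exact ⟨a, b, k1, k2, k3,
    (btw_edge h1 (h.btw _ _ _ (k2.trans_left k3))).resolve_right k4, k5⟩

theorem lift {a b : Y} (h1 : dist a b = 1) : ∃ x y, dist x y = 1 ∧ p x = a ∧ p y = b := by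
  obtain ⟨x, rfl⟩ := h.onto a
  obtain ⟨y, rfl⟩ := h.onto b
  obtain ⟨a, b, k1, -, -, k4, k5⟩ := h.lift_btw h1
  exact ⟨a, b, k1, k4, k5⟩

omit [IsSimp Y] in
/-- The sides of a kept edge are the preimages of the sides of its image. -/
theorem side {x y : X} (h1 : dist x y = 1) (h2 : p x ≠ p y) (w : X) :
    Btw (p x) (p y) (p w) ↔ Btw x y w :=
  ⟨fun k => (edge_or h1 w).resolve_right fun k' => h2 (k.antisymm' (h.btw _ _ _ k')),
    h.btw _ _ _⟩

omit [IsSimp Y] in
theorem inj {x y x' y' : X} (h1 : dist x y = 1) (h2 : dist x' y' = 1) (h3 : p x ≠ p y)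
    (h4 : p x = p x') (h5 : p y = p y') : x = x' ∧ y = y' := by
  have := edge_cross h1 h2
    (fun k => h3 (by have := h.btw _ _ _ k; rw [← h4] at this; exact this.eq_of_self.symm))
    ((h.side h1 h3 y').1 (h5 ▸ btw_right _ _))
  exact ⟨this.1.symm, this.2.symm⟩

omit [IsSimp Y] in
theorem fib {x y : X} :
    p x = p y ↔ ∀ a b, dist a b = 1 → Btw x a y → Btw x b y → p a = p b := by
  refine ⟨fun e a b _ h2 h3 => ?_, fun k => ?_⟩
  · exact (h.conv_fib (p x) x rfl y e.symm a h2).trans (h.conv_fib (p x) x rfl y e.symm b h3).symm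
  · exact seg_ind (P := fun z => p x = p z) rfl fun a b h1 h2 h3 h4 =>
      h4.trans (k a b h1 (h2.trans_left h3) h3)

omit [IsSimp Y] in
theorem fib_rtg {x y : X} :
    p x = p y ↔ Relation.ReflTransGen (fun a b => dist a b = 1 ∧ p a = p b) x y := by
  refine ⟨fun e => ?_, fun k => ?_⟩
  · exact Relation.ReflTransGen.mono (fun a b k => ⟨k.1, k.2.1.trans k.2.2.symm⟩) _ _
      (rtg_of_conv (h.conv_fib (p x)) rfl e.symm)
  · induction k with
    | refl => rfl
    | tail _ k ih => exact ih.trans k.2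

/-- A point between two images lifts to a point between. -/
theorem btw_lift {x y : X} {v : Y} (hv : Btw (p x) v (p y)) : ∃ z, Btw x z y ∧ p z = v := by
  by_cases e : p x = v
  · exact ⟨x, btw_left _ _, e⟩
  obtain ⟨u, h1, h2⟩ := exists_last e
  obtain ⟨a, b, k1, rfl, rfl⟩ := h.lift h1
  refine ⟨b, ?_, rfl⟩
  have k2 : Btw a b y := (h.side k1 (ne_of_edge h1) y).1 (h2.trans_left' hv)
  have k3 : Btw b a x := (h.side (edge_symm k1) (ne_of_edge h1).symm x).1 h2.symm
  exact k3.symm.concat_right k2 (ne_of_edge k1)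

omit [IsSimp X] [IsSimp Y] in
theorem comp {Z : Type} [MetricSpace Z] {q : Y → Z} (hq : Col q) : Col (q ∘ p) :=
  ⟨hq.onto.comp h.onto, fun _ _ _ k => hq.btw _ _ _ (h.btw _ _ _ k), fun x y k =>
    (h.adj x y k).elim (fun e => Or.inl (congrArg q e)) (hq.adj _ _)⟩

variable {G : Type} [Group G] [MulAction G X] [MulAction G Y] [IsIsometricSMul G X]
  (he : ∀ (g : G) x, p (g • x) = g • p x)
include he

omit [IsSimp Y] in
/-- A kept edge has the same stabiliser as its image; more generally elements that match the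
images match the edges. -/
theorem smul_edge {x y x' y' : X} (h1 : dist x y = 1) (h2 : dist x' y' = 1) (h3 : p x' ≠ p y')
    {g : G} (h4 : g • p x = p x') (h5 : g • p y = p y') : g • x = x' ∧ g • y = y' := by
  have := h.inj h2 (show dist (g • x) (g • y) = 1 by rw [dist_smul, h1]) h3
    (by rw [he, h4]) (by rw [he, h5])
  exact ⟨this.1.symm, this.2.symm⟩

theorem noInv {U : Subgroup G} (hN : NoInv X U) : NoInv Y U := by
  intro g hg v h1 h2
  obtain ⟨x, y, k1, k2, k3⟩ := h.lift h1
  have k4 : p y ≠ p x := by rw [k2, k3]; exact (ne_of_edge h1).symm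
  obtain ⟨k5, k6⟩ := h.smul_edge he k1 (edge_symm k1) k4 (g := g) (by rw [k2, k3])
    (by rw [k2, k3, h2])
  exact hN g hg x (by rw [k5, k1]) (by rw [k5, k6])

theorem te {U : Subgroup G}
    (hT : ∀ g ∈ U, ∀ x y : X, dist x y = 1 → p x ≠ p y → g • x = x → g • y = y → g = 1) :
    TE Y U := by
  intro g hg a b h1 h2 h3
  obtain ⟨x, y, k1, rfl, rfl⟩ := h.lift h1
  obtain ⟨k2, k3⟩ := h.smul_edge he k1 k1 (ne_of_edge h1) h2 h3
  exact hT g hg x y k1 (ne_of_edge h1) k2 k3

omit [IsIsometricSMul G X] in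
theorem cocpt {U : Subgroup G} (hC : Cocpt U X) : Cocpt U Y := by
  obtain ⟨⟨R, hR, k⟩, ⟨R', hR', k'⟩⟩ := hC
  refine ⟨⟨p '' R, hR.image _, fun v => ?_⟩, ⟨Prod.map p p '' R', hR'.image _, fun a b h1 => ?_⟩⟩
  · obtain ⟨x, rfl⟩ := h.onto v
    obtain ⟨g, hg, h1⟩ := k x
    exact ⟨g, hg, _, h1, he g x⟩
  · obtain ⟨x, y, k1, rfl, rfl⟩ := h.lift h1
    obtain ⟨g, hg, h2⟩ := k' x y k1
    exact ⟨g, hg, _, h2, Prod.ext (he g x) (he g y)⟩

omit h [IsSimp X] [IsSimp Y] [IsIsometricSMul G X] in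
theorem ell {g : G} (hg : Ell X g) : Ell Y g :=
  let ⟨x, hx⟩ := hg
  ⟨p x, by rw [← he, hx]⟩

/-- No inversion upstairs if there is none downstairs and none inside the fibres. -/
theorem noInv_up {U : Subgroup G} (hN : NoInv Y U)
    (hF : ∀ g ∈ U, ∀ x : X, dist x (g • x) = 1 → p (g • x) = p x → g • g • x ≠ x) : NoInv X U := by
  intro g hg x h1 h2
  rcases h.adj _ _ h1 with e | e
  · exact hF g hg x h1 e.symm h2
  · rw [he] at e
    exact hN g hg _ e (by rw [← he, ← he, h2])

end Col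

end Simp

end Pool.Agent.MP_3ce0a0_al.Q2T2
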