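import Pool.Agent.MP_3ce0a0_al.Q2T2.Spec

/-! A connected graph whose edges have sides is a simplicial tree. -/

namespace Pool.Agent.MP_3ce0a0_al.Q2T2

open Q2T1

namespace RGraph

variable {V : Type} {Γ : SimpleGraph V}

theorem walk_ge (hc : Γ.Preconnected) {s : Set V} {a b : V}
    (hs : ∀ x y, Γ.Adj x y → x ∉ s → y ∈ s → x = a ∧ y = b) {x z : V} (p : Γ.Walk x z)
    (hx : x ∉ s) (hz : z ∈ s) : Γ.dist x a + 1 + Γ.dist b z ≤ p.length := by
  induction p with
  | nil => exact absurd hz hx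
  | @cons x x' z h p ih =>
    rw [SimpleGraph.Walk.length_cons]
    by_cases h' : x' ∈ s
    · obtain ⟨rfl, rfl⟩ := hs x x' h hx h'
      have := SimpleGraph.dist_le p
      rw [SimpleGraph.dist_self]
      omega
    · have h1 := ih h' hz
      have h2 : Γ.dist x a ≤ Γ.dist x x' + Γ.dist x' a :=
        (hc x x').dist_triangle_left a
      have h3 : Γ.dist x x' = 1 := SimpleGraph.dist_eq_one_iff_adj.2 h
      omega

theorem sep (hc : Γ.Preconnected) {s : Set V} {a b : V} (hab : Γ.Adj a b)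
    (hs : ∀ x y, Γ.Adj x y → x ∉ s → y ∈ s → x = a ∧ y = b) {x z : V}
    (hx : x ∉ s) (hz : z ∈ s) : Γ.dist x z = Γ.dist x a + 1 + Γ.dist b z := by
  obtain ⟨p, hp⟩ := (hc x z).exists_walk_length_eq_dist
  have h1 := walk_ge hc hs p hx hz
  have h2 : Γ.dist x z ≤ Γ.dist x a + Γ.dist a z := (hc x a).dist_triangle_left z
  have h3 : Γ.dist a z ≤ Γ.dist a b + Γ.dist b z := (hc a b).dist_triangle_left z
  have h4 : Γ.dist a b = 1 := SimpleGraph.dist_eq_one_iff_adj.2 hab
  omega

theorem step (hc : Γ.Preconnected) {x y : V} (h : x ≠ y) :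
    ∃ z, Γ.Adj x z ∧ Γ.dist x y = Γ.dist z y + 1 := by
  obtain ⟨p, hp⟩ := (hc x y).exists_walk_length_eq_dist
  cases p with
  | nil => exact absurd rfl h
  | @cons _ z _ h' p =>
    refine ⟨z, h', ?_⟩
    rw [SimpleGraph.Walk.length_cons] at hp
    have h1 := SimpleGraph.dist_le p
    have h3 : Γ.dist x y ≤ Γ.dist x z + Γ.dist z y := (hc x z).dist_triangle_left y
    have h4 : Γ.dist x z = 1 := SimpleGraph.dist_eq_one_iff_adj.2 h'
    omega

/-- The first step towards `y` splits the graph. -/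
theorem split (hc : Γ.Preconnected)
    (hs : ∀ a b, Γ.Adj a b → ∃ s : Set V, a ∉ s ∧ b ∈ s ∧
      ∀ x y, Γ.Adj x y → x ∉ s → y ∈ s → x = a ∧ y = b) {x y : V} (h : x ≠ y) :
    ∃ x', Γ.dist x y = Γ.dist x' y + 1 ∧ Γ.dist x x' = 1 ∧ ∀ z,
      Γ.dist z y = Γ.dist z x + Γ.dist x y ∨ Γ.dist x z = Γ.dist x' z + 1 := by
  obtain ⟨x', ha, hd⟩ := step hc h
  obtain ⟨s, h1, h2, h3⟩ := hs x x' ha
  have hy : y ∈ s := by
    by_contra hy
    have := sep hc ha h3 hy h2
    rw [SimpleGraph.dist_self, Γ.dist_comm (u := y), Γ.dist_comm (u := y)] at this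
    omega
  refine ⟨x', hd, SimpleGraph.dist_eq_one_iff_adj.2 ha, fun z => ?_⟩
  by_cases hz : z ∈ s
  · have := sep hc ha h3 h1 hz
    rw [SimpleGraph.dist_self] at this
    omega
  · have := sep hc ha h3 hz hy
    omega

theorem four (hc : Γ.Preconnected)
    (hs : ∀ a b, Γ.Adj a b → ∃ s : Set V, a ∉ s ∧ b ∈ s ∧
      ∀ x y, Γ.Adj x y → x ∉ s → y ∈ s → x = a ∧ y = b) (y z w : V) (n : ℕ) :
    ∀ x, Γ.dist x y = n → Γ.dist x y + Γ.dist z w ≤ Γ.dist x z + Γ.dist y w ∨
      Γ.dist x y + Γ.dist z w ≤ Γ.dist x w + Γ.dist y z := by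
  have tri : ∀ a b c, Γ.dist a c ≤ Γ.dist a b + Γ.dist b c :=
    fun a b c => (hc a b).dist_triangle_left c
  induction n with
  | zero =>
    intro x hx
    obtain rfl := (hc x y).dist_eq_zero_iff.1 hx
    have := tri z x w
    rw [Γ.dist_comm (u := z) (v := x)] at this
    omega
  | succ n ih =>
    intro x hx
    have hne : x ≠ y := by
      rintro rfl
      rw [SimpleGraph.dist_self] at hx
      omega
    obtain ⟨x', h1, -, h2⟩ := split hc hs hne
    have h3 := ih x' (by omega)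
    have h4 := h2 z
    have h5 := h2 w
    have h6 := tri z x w
    have e1 := Γ.dist_comm (u := z) (v := x)
    have e2 := Γ.dist_comm (u := w) (v := x)
    have e3 := Γ.dist_comm (u := z) (v := y)
    have e4 := Γ.dist_comm (u := w) (v := y)
    omega

theorem exm (hc : Γ.Preconnected)
    (hs : ∀ a b, Γ.Adj a b → ∃ s : Set V, a ∉ s ∧ b ∈ s ∧
      ∀ x y, Γ.Adj x y → x ∉ s → y ∈ s → x = a ∧ y = b) (y z : V) (n : ℕ) :
    ∀ x, Γ.dist x y = n → ∃ m, Γ.dist x m + Γ.dist m y = Γ.dist x y ∧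
      Γ.dist y m + Γ.dist m z = Γ.dist y z ∧ Γ.dist x m + Γ.dist m z = Γ.dist x z := by
  have tri : ∀ a b c, Γ.dist a c ≤ Γ.dist a b + Γ.dist b c :=
    fun a b c => (hc a b).dist_triangle_left c
  induction n with
  | zero =>
    intro x hx
    obtain rfl := (hc x y).dist_eq_zero_iff.1 hx
    exact ⟨x, by simp, by simp, by simp⟩
  | succ n ih =>
    intro x hx
    have hne : x ≠ y := by
      rintro rfl
      rw [SimpleGraph.dist_self] at hx
      omega
    obtain ⟨x', h1, h0, h2⟩ := split hc hs hne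
    rcases h2 z with h3 | h3
    · refine ⟨x, by simp, ?_, by simp⟩
      have e1 := Γ.dist_comm (u := z) (v := x)
      have e2 := Γ.dist_comm (u := y) (v := x)
      have e3 := Γ.dist_comm (u := z) (v := y)
      omega
    · obtain ⟨m, k1, k2, k3⟩ := ih x' (by omega)
      have t1 := tri x x' m
      have t2 := tri x m y
      have t3 := tri x m z
      exact ⟨m, by omega, k2, by omega⟩

end RGraph

theorem sGraph : SGraph := by
  intro V A hsy hcon hs
  let Γ : SimpleGraph V :=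
    { Adj := A
      symm := ⟨hsy⟩
      loopless := ⟨fun a h => by
        obtain ⟨s, h1, h2, -⟩ := hs a a h
        exact h1 h2⟩ }
  have hc : Γ.Preconnected := fun x y =>
    (SimpleGraph.reachable_iff_reflTransGen x y).2 (hcon x y)
  let m : MetricSpace V :=
    { dist := fun x y => (Γ.dist x y : ℝ)
      dist_self := fun x => by simp
      dist_comm := fun x y => by rw [Γ.dist_comm]
      dist_triangle := fun x y z => by exact_mod_cast (hc x y).dist_triangle_left z
      eq_of_dist_eq_zero := fun {x y} h => (hc x y).dist_eq_zero_iff.1 (by exact_mod_cast h) }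
  have hd : ∀ x y : V, dist x y = (Γ.dist x y : ℝ) := fun _ _ => rfl
  refine ⟨m, @IsSimp.mk V m ⟨fun x y z w => ?_, fun x y z => ?_⟩ (fun x y => ⟨_, hd x y⟩)
    fun x y h => ?_, fun x y => ?_⟩
  · simp only [hd]
    rcases RGraph.four hc hs y z w _ x rfl with h | h
    · exact le_max_of_le_left (by exact_mod_cast h)
    · exact le_max_of_le_right (by exact_mod_cast h)
  · obtain ⟨m, h1, h2, h3⟩ := RGraph.exm hc hs y z _ x rfl
    refine ⟨m, ?_, ?_, ?_⟩ <;> simp only [Q2T1.Btw, hd]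
    · exact_mod_cast h1
    · exact_mod_cast h2
    · exact_mod_cast h3
  · obtain ⟨z, h1, h2⟩ := RGraph.step hc h
    have h3 : Γ.dist x z = 1 := SimpleGraph.dist_eq_one_iff_adj.2 h1
    refine ⟨z, by rw [hd, h3, Nat.cast_one], ?_⟩
    simp only [Q2T1.Btw, hd]
    rw [h2, h3]
    push_cast
    ring
  · rw [hd, Nat.cast_eq_one]
    exact SimpleGraph.dist_eq_one_iff_adj

end Pool.Agent.MP_3ce0a0_al.Q2T2
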