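import Pool.Agent.MP_3ce0a0_al.Q2T2.Col
import Pool.Agent.MP_3ce0a0_al.Q2T2.Graph

/-! Blow-up of vertices of a simplicial tree. -/

namespace Pool.Agent.MP_3ce0a0_al.Q2T2

open Q2T1 MulAction

/-- Equivariant choice. -/
theorem exists_equivariant {G D Z : Type} [Group G] [MulAction G D] [MulAction G Z]
    (Q : D → Prop) (R : D → Z → Prop) (hQ : ∀ (g : G) d, Q d → Q (g • d))
    (hR : ∀ (g : G) d z, R d z → R (g • d) (g • z))
    (h : ∀ d, ∃ z, Q d → R d z ∧ ∀ g : G, g • d = d → g • z = z) :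
    ∃ P : D → Z, ∀ d, Q d → R d (P d) ∧ ∀ g : G, P (g • d) = g • P d := by
  choose z hz using h
  let ρ : D → D := fun d => (Quotient.mk (orbitRel G D) d).out
  have h1 : ∀ d, ∃ g : G, g • ρ d = d := fun d =>
    (orbitRel G D).symm (Quotient.mk_out (s := orbitRel G D) d)
  have h2 : ∀ (g : G) d, ρ (g • d) = ρ d := fun g d =>
    congrArg Quotient.out (Quotient.sound (s := orbitRel G D) ⟨g, rfl⟩)
  choose t ht using h1
  refine ⟨fun d => t d • z (ρ d), fun d hd => ?_⟩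
  have h3 : Q (ρ d) := by simpa using hQ (t d)⁻¹ _ ((ht d).symm ▸ hd : Q (t d • ρ d))
  refine ⟨by simpa only [ht] using hR (t d) _ _ (hz _ h3).1, fun g => ?_⟩
  have h4 := (hz _ h3).2 ((t (g • d))⁻¹ * g * t d) (by
    rw [mul_smul, mul_smul, ht, inv_smul_eq_iff, ← h2 g d, ht])
  rw [mul_smul, mul_smul, inv_smul_eq_iff] at h4
  simp only [h2, h4]

/-- Blow-up along a forest `B` on `Z` whose components are the fibres of `p`. -/
theorem bu_core {G T Z : Type} [Group G] [MetricSpace T] [IsSimp T] [MulAction G T]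
    [IsIsometricSMul G T] [MulAction G Z] (p : Z → T) (onto : Function.Surjective p)
    (he : ∀ (g : G) z, p (g • z) = g • p z) (B : Z → Z → Prop) (Bs : ∀ x y, B x y → B y x)
    (Bg : ∀ (g : G) x y, B x y → B (g • x) (g • y)) (Bp : ∀ x y, B x y → p x = p y)
    (Bc : ∀ x y, p x = p y → Relation.ReflTransGen B x y)
    (Bt : ∀ a b, B a b → ∃ s : Set Z, a ∉ s ∧ b ∈ s ∧
      ∀ x y, B x y → p x = p a → x ∉ s → y ∈ s → x = a ∧ y = b)
    (hP : ∀ v w, dist v w = 1 → ∃ q, p q = v ∧ ∀ g : G, g • v = v → g • w = w → g • q = q) :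
    ∃ _ : MetricSpace Z, IsSimp Z ∧ IsIsometricSMul G Z ∧ Col p ∧
      ∀ x y, p x = p y → (dist x y = 1 ↔ B x y) := by
  obtain ⟨P, hP⟩ := exists_equivariant (G := G) (fun d : T × T => dist d.1 d.2 = 1)
    (fun d z => p z = d.1) (fun g d h => by simpa using h) (fun g d z h => by simp [he, h])
    (fun d => by
      by_cases h : dist d.1 d.2 = 1
      · obtain ⟨q, h1, h2⟩ := hP _ _ h
        exact ⟨q, fun _ => ⟨h1, fun g hg => h2 g (congrArg Prod.fst hg) (congrArg Prod.snd hg)⟩⟩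
      · exact ⟨(onto d.1).choose, fun h' => absurd h' h⟩)
  have P1 : ∀ v w, dist v w = 1 → p (P (v, w)) = v := fun v w h => (hP (v, w) h).1
  let A : Z → Z → Prop := fun x y =>
    B x y ∨ ∃ v w, dist v w = 1 ∧ x = P (v, w) ∧ y = P (w, v)
  have hB : ∀ x y, p x = p y → Relation.ReflTransGen A x y := fun x y h =>
    Relation.ReflTransGen.mono (fun _ _ => Or.inl) _ _ (Bc x y h)
  obtain ⟨m, hS, hA⟩ := sGraph Z A
    (by
      rintro x y (h | ⟨v, w, h, rfl, rfl⟩)
      · exact Or.inl (Bs _ _ h)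
      · exact Or.inr ⟨w, v, edge_symm h, rfl, rfl⟩)
    (fun x y => geo_ind (P := fun v => ∀ y, p y = v → Relation.ReflTransGen A x y) (p x)
      (fun y h => hB x y h.symm)
      (fun a b h _ ih y hy => ((ih _ (P1 a b h)).tail (Or.inr ⟨a, b, h, rfl, rfl⟩)).trans
        (hB _ _ ((P1 b a (edge_symm h)).trans hy.symm))) (p y) y rfl)
    (by
      rintro a b (h | ⟨u, w, h, rfl, rfl⟩)
      · obtain ⟨s, s1, s2, s3⟩ := Bt a b h
        let Gt : Z → Z → Prop := fun z q => (p z = p a ∧ q = z) ∨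
          ∃ w, dist (p a) w = 1 ∧ Btw (p a) w (p z) ∧ q = P (p a, w)
        have g1 : ∀ z q, p z = p a → Gt z q → q = z := by
          rintro z q h1 (h2 | ⟨w, h2, h3, -⟩)
          · exact h2.2
          · rw [h1] at h3
            exact absurd h3.eq_of_self (ne_of_edge h2).symm
        refine ⟨{z | ∃ q, Gt z q ∧ q ∈ s}, fun ⟨q, h1, h2⟩ => s1 (g1 _ _ rfl h1 ▸ h2),
          ⟨b, Or.inl ⟨(Bp _ _ h).symm, rfl⟩, s2⟩, ?_⟩
        rintro x y (k | ⟨u, w, k, rfl, rfl⟩) hx ⟨q, h1, h2⟩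
        · by_cases e : p x = p a
          · obtain rfl := g1 _ _ ((Bp _ _ k).symm.trans e) h1
            exact s3 x q k e (fun h3 => hx ⟨x, Or.inl ⟨e, rfl⟩, h3⟩) h2
          · refine absurd ⟨q, ?_, h2⟩ hx
            rcases h1 with h1 | ⟨w, h3, h4, h5⟩
            · exact absurd ((Bp _ _ k).trans h1.1) e
            · exact Or.inr ⟨w, h3, (Bp _ _ k).symm ▸ h4, h5⟩
        · refine absurd ⟨q, ?_, h2⟩ hx
          have e1 := P1 u w k
          have e2 := P1 w u (edge_symm k)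
          rcases h1 with ⟨h3, h4⟩ | ⟨w', h3, h4, h5⟩
          · rw [e2] at h3
            subst h3
            exact Or.inr ⟨u, edge_symm k, e1.symm ▸ btw_right _ _, h4⟩
          · rw [e2] at h4
            by_cases e : u = p a
            · subst e
              obtain rfl := (btw_edge k h4).resolve_left (ne_of_edge h3).symm
              exact Or.inl ⟨e1, h5⟩
            · refine Or.inr ⟨w', h3, ?_, h5⟩
              rw [e1]
              by_contra hn
              exact e (edge_cross h3 k hn h4).1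
      · refine ⟨{z | Btw u w (p z)}, fun k => ?_, ?_, ?_⟩
        · rw [Set.mem_setOf_eq, P1 u w h] at k
          exact ne_of_edge h k.eq_of_self.symm
        · rw [Set.mem_setOf_eq, P1 w u (edge_symm h)]
          exact btw_right _ _
        · rintro x y (k | ⟨u', w', k, rfl, rfl⟩) hx hy
          · exact absurd (show Btw u w (p x) from (Bp _ _ k).symm ▸ hy) hx
          · rw [Set.mem_setOf_eq, P1 u' w' k] at hx
            rw [Set.mem_setOf_eq, P1 w' u' (edge_symm k)] at hy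
            obtain ⟨rfl, rfl⟩ := edge_cross h k hx hy
            exact ⟨rfl, rfl⟩)
  refine ⟨m, hS, isom_of_edge fun g x y h => (hA _ _).2 ?_, Col.of_inj onto ?_ ?_, ?_⟩
  · rcases (hA _ _).1 h with k | ⟨v, w, k, rfl, rfl⟩
    · exact Or.inl (Bg g _ _ k)
    · exact Or.inr ⟨g • v, g • w, by rw [dist_smul, k], ((hP (v, w) k).2 g).symm,
        ((hP (w, v) (edge_symm k)).2 g).symm⟩
  · intro x y h
    rcases (hA _ _).1 h with k | ⟨v, w, k, rfl, rfl⟩
    · exact Or.inl (Bp _ _ k)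
    · exact Or.inr (by rw [P1 v w k, P1 w v (edge_symm k), k])
  · intro x y x' y' h h' h1 h2 h3
    rcases (hA _ _).1 h with k | ⟨v, w, k, rfl, rfl⟩
    · exact absurd (Bp _ _ k) h1
    rcases (hA _ _).1 h' with k' | ⟨v', w', k', rfl, rfl⟩
    · exact absurd (h2.trans ((Bp _ _ k').trans h3.symm)) h1
    rw [P1 v w k, P1 v' w' k'] at h2
    rw [P1 w v (edge_symm k), P1 w' v' (edge_symm k')] at h3
    subst h2 h3
    exact ⟨rfl, rfl⟩
  · refine fun x y h => (hA _ _).trans ⟨?_, Or.inl⟩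
    rintro (k | ⟨v, w, k, rfl, rfl⟩)
    · exact k
    · rw [P1 v w k, P1 w v (edge_symm k)] at h
      exact absurd h (ne_of_edge k)

namespace RBU

/-- The induced forest. -/
structure Ind (G : Type) {T ι : Type} [Group G] [MulAction G T] (x : ι → T) (Y : ι → Type) where
  i : ι
  v : T
  hv : ∃ g : G, g • x i = v
  y : Y i

variable {G T ι : Type} [Group G] [MulAction G T] {x : ι → T} {Y : ι → Type}

open Classical in
/-- A transversal. -/
noncomputable def tr (G : Type) [Group G] [MulAction G T] (a v : T) : G :=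
  if v = a then 1 else if h : ∃ g : G, g • a = v then h.choose else 1

theorem tr_self (a : T) : tr G a a = 1 := if_pos rfl

theorem tr_smul {a v : T} (h : ∃ g : G, g • a = v) : tr G a v • a = v := by
  unfold tr
  split_ifs with h1
  · rw [one_smul, h1]
  · exact h.choose_spec

theorem orb_smul {a v : T} (h : ∃ g : G, g • a = v) (g : G) : ∃ g' : G, g' • a = g • v :=
  let ⟨k, hk⟩ := h
  ⟨g * k, by rw [mul_smul, hk]⟩

/-- The cocycle of the transversal. -/
noncomputable def co {a v : T} (h : ∃ g : G, g • a = v) (g : G) : stabilizer G a :=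
  ⟨(tr G a (g • v))⁻¹ * g * tr G a v, by
    rw [mem_stabilizer_iff, mul_smul, mul_smul, tr_smul h, inv_smul_eq_iff,
      tr_smul (orb_smul h g)]⟩

theorem Ind.ext' {i : ι} {v v' : T} {hv : ∃ g : G, g • x i = v} {hv' : ∃ g : G, g • x i = v'}
    {y y' : Y i} (h1 : v = v') (h2 : y = y') :
    (⟨i, v, hv, y⟩ : Ind G x Y) = ⟨i, v', hv', y'⟩ := by
  subst h1 h2
  rfl

variable [∀ i, MulAction (stabilizer G (x i)) (Y i)]

noncomputable instance : MulAction G (Ind G x Y) where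
  smul g z := ⟨z.i, g • z.v, orb_smul z.hv g, co z.hv g • z.y⟩
  one_smul z := by
    have : co z.hv 1 = 1 := Subtype.ext (by simp [co])
    exact Ind.ext' (one_smul _ _) (by rw [this, one_smul])
  mul_smul g h z := by
    have : co z.hv (g * h) = co (orb_smul z.hv h) g * co z.hv h :=
      Subtype.ext (by simp [co, mul_smul, mul_assoc])
    exact Ind.ext' (mul_smul _ _ _) (by rw [this, mul_smul]; rfl)

theorem smul_mk (g : G) (i : ι) (v : T) (hv : ∃ g : G, g • x i = v) (y : Y i) :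
    g • (⟨i, v, hv, y⟩ : Ind G x Y) = ⟨i, g • v, orb_smul hv g, co hv g • y⟩ := rfl

/-- The inclusion of the tree of a representative. -/
def inc (i : ι) (y : Y i) : Ind G x Y := ⟨i, x i, ⟨1, one_smul _ _⟩, y⟩

theorem inc_smul (i : ι) (g : stabilizer G (x i)) (y : Y i) :
    (inc i (g • y) : Ind G x Y) = (g : G) • inc i y := by
  have h1 : (g : G) • x i = x i := g.2
  have : co (⟨1, one_smul _ _⟩ : ∃ g : G, g • x i = x i) g = g :=
    Subtype.ext (by simp [co, h1, tr_self])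
  exact Ind.ext' h1.symm (congrArg (· • y) this.symm)

end RBU

open RBU in
theorem sBU : SBU := by
  intro G T _ _ _ _ _ ι x Y _ _ _ _ _ h1 h2 h3
  have idx : ∀ {i i' : ι} {v : T}, (∃ g : G, g • x i = v) → (∃ g : G, g • x i' = v) → i = i' := by
    rintro i i' _ ⟨g, rfl⟩ ⟨g', h⟩
    exact h2 i i' (g'⁻¹ * g) (by rw [mul_smul, ← h, inv_smul_smul])
  let B : Ind G x Y → Ind G x Y → Prop := fun z z' =>
    ∃ i v hv y y', dist y y' = 1 ∧ z = ⟨i, v, hv, y⟩ ∧ z' = ⟨i, v, hv, y'⟩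
  have hB : ∀ i v hv y y', B ⟨i, v, hv, y⟩ ⟨i, v, hv, y'⟩ ↔ dist y y' = 1 := fun i v hv y y' => by
    refine ⟨?_, fun h => ⟨i, v, hv, y, y', h, rfl, rfl⟩⟩
    rintro ⟨i, v, hv, y, y', h, ⟨⟩, ⟨⟩⟩
    exact h
  obtain ⟨m, k1, k2, k3, k4⟩ := bu_core (G := G) (Ind.v : Ind G x Y → T)
    (fun v => by
      obtain ⟨i, hi⟩ := h1 v
      exact ⟨⟨i, v, hi, Classical.arbitrary _⟩, rfl⟩)
    (fun _ _ => rfl) B
    (by
      rintro _ _ ⟨i, v, hv, y, y', h, rfl, rfl⟩
      exact ⟨i, v, hv, y', y, edge_symm h, rfl, rfl⟩)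
    (by
      rintro g _ _ ⟨i, v, hv, y, y', h, rfl, rfl⟩
      exact ⟨i, _, _, _, _, by rw [dist_smul, h], smul_mk g i v hv y, smul_mk g i v hv y'⟩)
    (by
      rintro _ _ ⟨i, v, hv, y, y', h, rfl, rfl⟩
      rfl)
    (by
      rintro ⟨i, v, hv, y⟩ ⟨i', v', hv', y'⟩ (rfl : v = v')
      obtain rfl := idx hv hv'
      exact geo_ind (P := fun y' => Relation.ReflTransGen B ⟨i, v, hv, y⟩ ⟨i, v, hv, y'⟩) y
        Relation.ReflTransGen.refl (fun a b h _ ih => ih.tail ((hB _ _ _ _ _).2 h)) y')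
    (by
      rintro _ _ ⟨i, v, hv, a, b, h, rfl, rfl⟩
      have hs : ∀ v hv y, (⟨i, v, hv, y⟩ : Ind G x Y) ∈
          {z : Ind G x Y | ∃ v hv y, Btw a b y ∧ z = ⟨i, v, hv, y⟩} ↔ Btw a b y := fun v hv y => by
        refine ⟨?_, fun h => ⟨v, hv, y, h, rfl⟩⟩
        rintro ⟨v, hv, y, h, ⟨⟩⟩
        exact h
      refine ⟨{z | ∃ v hv y, Btw a b y ∧ z = ⟨i, v, hv, y⟩}, fun k => ?_,
        (hs _ _ _).2 (btw_right _ _), ?_⟩
      · exact ne_of_edge h ((hs _ _ _).1 k).eq_of_self.symm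
      · rintro _ _ ⟨i', v', hv', y, y', h', rfl, rfl⟩ (rfl : v' = v) hx hy
        obtain rfl := idx hv hv'
        obtain ⟨rfl, rfl⟩ := edge_cross h h' (fun k => hx ((hs _ _ _).2 k)) ((hs _ _ _).1 hy)
        exact ⟨rfl, rfl⟩)
    (fun v w h => by
      obtain ⟨i, g, rfl⟩ := h1 v
      obtain ⟨q, hq⟩ := h3 i (g⁻¹ • w) (by rw [← dist_smul g, smul_inv_smul, h])
      refine ⟨g • inc i q, rfl, fun k e1 e2 => ?_⟩
      have e3 : g⁻¹ * k * g ∈ stabilizer G (x i) := by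
        rw [mem_stabilizer_iff, mul_smul, mul_smul, e1, inv_smul_smul]
      have e4 := inc_smul i ⟨_, e3⟩ q
      rw [hq ⟨_, e3⟩ (by simp [mul_smul, e2])] at e4
      rw [mul_smul, mul_smul, eq_inv_smul_iff] at e4
      exact e4.symm)
  refine ⟨Ind G x Y, m, k1, inferInstance, k2, Ind.v, inc, k3, fun _ _ => rfl, fun i =>
    ⟨isometry_of_edge ?_ fun y y' h => (k4 (inc i y) (inc i y') rfl).2 ((hB _ _ _ _ _).2 h),
      inc_smul i, ?_⟩⟩
  · rintro y y' ⟨⟩
    rfl
  · rintro ⟨i', v, hv, y⟩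
    refine ⟨?_, fun ⟨y', h⟩ => (congrArg Ind.v h).symm⟩
    rintro (rfl : v = x i)
    obtain rfl := idx hv ⟨1, one_smul _ _⟩
    exact ⟨y, rfl⟩

theorem sBU' : SBU' := by
  intro G T _ _ _ _ _ Y _ _ _ _ _ h
  classical
  let R : Set T := Set.range fun q : orbitRel.Quotient G T => q.out
  have h1 : ∀ v, ∃ r ∈ R, ∃ g : G, g • r = v := fun v =>
    ⟨_, ⟨Quotient.mk _ v, rfl⟩, (orbitRel G T).symm (Quotient.mk_out (s := orbitRel G T) v)⟩
  have h2 : ∀ r ∈ R, ∀ r' ∈ R, ∀ g : G, g • r = r' → r = r' := by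
    rintro _ ⟨q, rfl⟩ _ ⟨q', rfl⟩ g hg
    have : q' = q := Quotient.out_equiv_out.1 ⟨g, hg⟩
    rw [this]
  obtain ⟨Z, m, k1, a, k2, p, j, k3, k4, k5⟩ := sBU G T R Subtype.val (fun r => Y r)
    (fun v => let ⟨r, hr, g, hg⟩ := h1 v; ⟨⟨r, hr⟩, g, hg⟩)
    (fun r r' g hg => Subtype.ext (h2 _ r.2 _ r'.2 g hg)) fun r w => h r w
  refine ⟨Z, m, k1, a, k2, p, R,
    fun v y => if hv : v ∈ R then j ⟨v, hv⟩ y else (k3.onto v).choose, k3, k4, h1, h2,
    fun v hv => ?_⟩
  simp only [dif_pos hv]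
  exact k5 ⟨v, hv⟩

end Pool.Agent.MP_3ce0a0_al.Q2T2
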