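import Pool.Agent.MP_3ce0a0_al.Q2T1.Basic

/-! Operations on simplicial trees: the statements. -/

namespace Pool.Agent.MP_3ce0a0_al.Q2T2

open Q2T1 MulAction

section Defs

/-- Finitely many orbits of vertices and of edges. -/
structure Cocpt {G : Type} [Group G] (U : Subgroup G) (T : Type) [MetricSpace T] [MulAction G T] :
    Prop where
  finV : ∃ R : Set T, R.Finite ∧ ∀ x, ∃ g ∈ U, g • x ∈ R
  finE : ∃ R : Set (T × T), R.Finite ∧ ∀ x y : T, dist x y = 1 → ∃ g ∈ U, (g • x, g • y) ∈ R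

variable {G : Type} [Group G] (X : Type) [MetricSpace X] [MulAction G X]

/-- Trivial edge groups. -/
def TE (U : Subgroup G) : Prop :=
  ∀ g ∈ U, ∀ x y : X, dist x y = 1 → g • x = x → g • y = y → g = 1

/-- `a` acts trivially on the oriented quotient graph by `U`. -/
def TrivQ (U : Subgroup G) (a : G) : Prop :=
  (∀ x : X, ∃ u ∈ U, u • x = a • x) ∧
    ∀ x y : X, dist x y = 1 → ∃ u ∈ U, u • x = a • x ∧ u • y = a • y

variable {X}

/-- No point lies strictly between the distinct points `x` and `y`. -/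
def Nbr (x y : X) : Prop := x ≠ y ∧ ∀ z, Btw x z y → z = x ∨ z = y

/-- A collapse map of simplicial trees. The kept edges are those whose ends have different
images. -/
structure Col {Y : Type} [MetricSpace Y] (p : X → Y) : Prop where
  onto : Function.Surjective p
  btw : ∀ x z y, Btw x z y → Btw (p x) (p z) (p y)
  adj : ∀ x y, dist x y = 1 → p x = p y ∨ dist (p x) (p y) = 1

end Defs

/-- A connected graph in which every edge has two sides is a simplicial tree. -/
def SGraph : Prop :=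
  ∀ (V : Type) (A : V → V → Prop), (∀ x y, A x y → A y x) →
    (∀ x y, Relation.ReflTransGen A x y) →
    (∀ a b, A a b → ∃ s : Set V, a ∉ s ∧ b ∈ s ∧
      ∀ x y, A x y → x ∉ s → y ∈ s → x = a ∧ y = b) →
    ∃ _ : MetricSpace V, IsSimp V ∧ ∀ x y : V, dist x y = 1 ↔ A x y

/-- Collapse of an invariant set `C` of edges. -/
def SCol : Prop :=
  ∀ (G X : Type) [Group G] [MetricSpace X] [IsSimp X] [MulAction G X] [IsIsometricSMul G X]
    (C : X → X → Prop), (∀ x y, C x y → C y x) → (∀ (g : G) x y, C x y → C (g • x) (g • y)) →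
    ∃ (Y : Type) (_ : MetricSpace Y) (_ : IsSimp Y) (_ : MulAction G Y) (_ : IsIsometricSMul G Y)
      (p : X → Y), Col p ∧ (∀ (g : G) x, p (g • x) = g • p x) ∧
      ∀ x y, dist x y = 1 → (p x = p y ↔ C x y)

/-- Blow-up of the vertices `x i`, a system of orbit representatives, by trees `Y i` of the
vertex groups in which the incident edge groups are elliptic. -/
def SBU : Prop :=
  ∀ (G T : Type) [Group G] [MetricSpace T] [IsSimp T] [MulAction G T] [IsIsometricSMul G T]
    (ι : Type) (x : ι → T) (Y : ι → Type) [∀ i, MetricSpace (Y i)] [∀ i, IsSimp (Y i)]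
    [∀ i, Nonempty (Y i)] [∀ i, MulAction (stabilizer G (x i)) (Y i)]
    [∀ i, IsIsometricSMul (stabilizer G (x i)) (Y i)],
    (∀ v, ∃ i, ∃ g : G, g • x i = v) → (∀ i i' (g : G), g • x i = x i' → i = i') →
    (∀ i w, dist (x i) w = 1 → ∃ q : Y i, ∀ g : stabilizer G (x i), (g : G) • w = w → g • q = q) →
    ∃ (Z : Type) (_ : MetricSpace Z) (_ : IsSimp Z) (_ : MulAction G Z) (_ : IsIsometricSMul G Z)
      (p : Z → T) (j : ∀ i, Y i → Z), Col p ∧ (∀ (g : G) z, p (g • z) = g • p z) ∧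
      ∀ i, Isometry (j i) ∧ (∀ (g : stabilizer G (x i)) y, j i (g • y) = (g : G) • j i y) ∧
        ∀ z, p z = x i ↔ ∃ y, j i y = z

/-- Blow-up with a tree given at every vertex; only those at the points of `R` are used. -/
def SBU' : Prop :=
  ∀ (G T : Type) [Group G] [MetricSpace T] [IsSimp T] [MulAction G T] [IsIsometricSMul G T]
    (Y : T → Type) [∀ v, MetricSpace (Y v)] [∀ v, IsSimp (Y v)] [∀ v, Nonempty (Y v)]
    [∀ v, MulAction (stabilizer G v) (Y v)] [∀ v, IsIsometricSMul (stabilizer G v) (Y v)],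
    (∀ v w, dist v w = 1 → ∃ q : Y v, ∀ g : stabilizer G v, (g : G) • w = w → g • q = q) →
    ∃ (Z : Type) (_ : MetricSpace Z) (_ : IsSimp Z) (_ : MulAction G Z) (_ : IsIsometricSMul G Z)
      (p : Z → T) (R : Set T) (j : ∀ v, Y v → Z), Col p ∧ (∀ (g : G) z, p (g • z) = g • p z) ∧
      (∀ v, ∃ r ∈ R, ∃ g : G, g • r = v) ∧ (∀ r ∈ R, ∀ r' ∈ R, ∀ g : G, g • r = r' → r = r') ∧
      ∀ v ∈ R, Isometry (j v) ∧ (∀ (g : stabilizer G v) y, j v (g • y) = (g : G) • j v y) ∧
        ∀ z, p z = v ↔ ∃ y, j v y = z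

/-- The quotient by a normal subgroup generated by elliptic elements is a tree. -/
def SQuo : Prop :=
  ∀ (G X : Type) [Group G] [MetricSpace X] [IsSimp X] [MulAction G X] [IsIsometricSMul G X]
    (N : Subgroup G), N.Normal → N ≤ Subgroup.closure {g | g ∈ N ∧ Ell X g} →
    ∃ (Y : Type) (_ : MetricSpace Y) (_ : IsSimp Y) (_ : MulAction G Y) (_ : IsIsometricSMul G Y)
      (p : X → Y), Function.Surjective p ∧ (∀ (g : G) x, p (g • x) = g • p x) ∧
      (∀ x y, p x = p y ↔ ∃ n ∈ N, n • x = y) ∧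
      (∀ x y, dist x y = 1 → dist (p x) (p y) = 1) ∧
      (∀ x b, dist (p x) b = 1 → ∃ y, dist x y = 1 ∧ p y = b) ∧
      ∀ x y x' y', dist x y = 1 → dist x' y' = 1 → p x = p x' → p y = p y' →
        ∃ n ∈ N, n • x = x' ∧ n • y = y'

/-- A tree-space with finite segments is the vertex set of a simplicial tree. -/
def SNbr : Prop :=
  ∀ (G X : Type) [Group G] [MetricSpace X] [IsTree X] [MulAction G X] [BAct G X],
    (∀ x y : X, (seg x y).Finite) →
    ∃ (Y : Type) (_ : MetricSpace Y) (_ : IsSimp Y) (_ : MulAction G Y) (_ : IsIsometricSMul G Y)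
      (e : X ≃ Y), (∀ (g : G) x, e (g • x) = g • e x) ∧
      (∀ x z y, Btw (e x) (e z) (e y) ↔ Btw x z y) ∧ ∀ x y, dist (e x) (e y) = 1 ↔ Nbr x y

/-- An invariant convex set is a simplicial tree with an action. -/
def SSub : Prop :=
  ∀ (G X : Type) [Group G] [MetricSpace X] [IsSimp X] [MulAction G X] [IsIsometricSMul G X]
    (C : Set X), Conv C → (∀ (g : G), ∀ x ∈ C, g • x ∈ C) →
    ∃ (Y : Type) (_ : MetricSpace Y) (_ : IsSimp Y) (_ : MulAction G Y) (_ : IsIsometricSMul G Y)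
      (j : Y → X), Isometry j ∧ (∀ (g : G) y, j (g • y) = g • j y) ∧ Set.range j = C

/-- The minimal subtree of a finitely generated normal subgroup: it is cocompact, every orbit
meets every direction, and elliptic subgroups stay elliptic. -/
def SMin : Prop :=
  ∀ (G X : Type) [Group G] [MetricSpace X] [IsSimp X] [MulAction G X] [IsIsometricSMul G X]
    (U : Subgroup G), U.Normal → U.FG → NoInv X U → (∀ x : X, ∃ u ∈ U, u • x ≠ x) →
    Nonempty X →
    ∃ (Y : Type) (_ : MetricSpace Y) (_ : IsSimp Y) (_ : MulAction G Y) (_ : IsIsometricSMul G Y)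
      (j : Y → X), Nonempty Y ∧ Isometry j ∧ (∀ (g : G) y, j (g • y) = g • j y) ∧
      Set.range j = Tmin X U ∧ Conv (Set.range j) ∧ Cocpt U Y ∧
      (∀ x y z : Y, y ≠ x → ∃ u ∈ U, u • z ∈ dir x y) ∧
      ∀ H : Subgroup G, (Fix X H).Nonempty → (Fix Y H).Nonempty

/-- A subgroup of finite index acts trivially on the oriented quotient graph. -/
def SFI : Prop :=
  ∀ (G X : Type) [Group G] [MetricSpace X] [MulAction G X] [IsIsometricSMul G X]
    (U : Subgroup G), U.Normal → Cocpt U X →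
    ∃ H : Subgroup G, H.Normal ∧ H.FiniteIndex ∧ U ≤ H ∧ ∀ a ∈ H, TrivQ X U a

/-- Barycentric subdivision removes inversions. -/
def SSubdiv : Prop :=
  ∀ (G X : Type) [Group G] [MetricSpace X] [IsSimp X] [MulAction G X] [IsIsometricSMul G X],
    ∃ (Y : Type) (_ : MetricSpace Y) (_ : IsSimp Y) (_ : MulAction G Y) (_ : IsIsometricSMul G Y)
      (j : X → Y) (m : X → X → Y), (∀ (g : G) x, j (g • x) = g • j x) ∧
      (∀ x y, dist (j x) (j y) = 2 * dist x y) ∧
      (∀ (g : G) x y, dist x y = 1 → m (g • x) (g • y) = g • m x y) ∧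
      (∀ x y, dist x y = 1 → m x y = m y x ∧ dist (j x) (m x y) = 1) ∧
      (∀ x y x' y', dist x y = 1 → dist x' y' = 1 → m x y = m x' y' →
        (x = x' ∧ y = y') ∨ (x = y' ∧ y = x')) ∧
      (∀ z, (∃ x, z = j x) ∨ ∃ x y, dist x y = 1 ∧ z = m x y) ∧
      (∀ z z', dist z z' = 1 → ∃ x y, dist x y = 1 ∧
        ((z = j x ∧ z' = m x y) ∨ (z' = j x ∧ z = m x y))) ∧ NoInv Y (⊤ : Subgroup G)

end Pool.Agent.MP_3ce0a0_al.Q2T2
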